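import Pool.Agent.H9.GEN.PkJ

/-!
# The joint chains at the good windows of a class

`Fac.jatE`: the exponent `E` is chosen so that all the levels of the iso box plus `E` stay below
`1`, and the joint chains hold with it.
-/

set_option autoImplicit false

namespace Pool.PKG

open MeasureTheory Set Filter Topology
open Pool.Agent.H49.Ent Pool.Agent.H32.Dense Pool.STK Pool.KA Pool.KSAT Pool.K2S Pool.PB
open Pool.GEN Pool.S6C Pool.STAT Pool.CHT Pool.GRW Pool.ONE Pool.STA
open Pool.LBT (LSys ThrOf)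
open Pool.LBN (cof)
open Pool.ALL (RateOf)
open Pool.TOP (T1c T2c TopS)
open Pool.STR (AttN)
open Pool.FRN (AttC UpA Wgd Gdy attN_attC tgP_of')
open Pool.JTN (TgP Cen jatN_of)

variable {n : ℕ} {hn : 2 ≤ n} {S : PCl n} {P : ℝ → ℝ → ℝ} {r : ℝ → ℝ}
  {P' : ℕ → List (Fin n) × Fin n → ℝ → ℝ → ℝ} {Λ : Finset (Fin n) → Fin n → ℝ → ℝ → ℝ}
  {o : Od n} {g α Q c : ℝ}

/-- A diagonal which is continuous at `g` is right-continuous there. -/
theorem rc_of_cont {f : ℝ → ℝ → ℝ} {x : ℝ} (h1 : x < 1)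
    (hf : ContinuousAt (fun v => f v v) x) : Rc f x x := by
  intro ε hε
  obtain ⟨δ, hδ, h2⟩ := Metric.continuousAt_iff.1 hf ε hε
  refine ⟨min (δ / 2) (1 - x), lt_min (by linarith) (by linarith), ?_, ?_⟩
  · have := min_le_right (δ / 2) (1 - x)
    linarith
  · have h3 := min_le_left (δ / 2) (1 - x)
    have h4 : 0 < min (δ / 2) (1 - x) := lt_min (by linarith) (by linarith)
    have h5 := h2 (x := x + min (δ / 2) (1 - x)) (by
      rw [Real.dist_eq, add_sub_cancel_left, abs_of_pos h4]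
      linarith)
    rw [Real.dist_eq] at h5
    have h6 := (abs_lt.1 h5).2
    linarith

/-- The precisions over the list are at most the last one, at the good window. -/
theorem Fac.bet_le (F : Fac hn S P r P' o g α Q c) (H : Pk hn S P r P' Λ) {l : ℕ}
    (hl : l < n - 1) :
    bet (P' o.2) (cc hn o.1.1) l g g ≤ bet (P' o.2) (cc hn o.1.1) (n - 2) g g := by
  have h1 := F.gre (n - 2) (by omega) l (by omega)
  have h2 := tau_mono (c := cc hn o.1.1) (l := l) (l' := n - 2) (i := n - 2) H.ne (H.cht o.2)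
    ((cc_inj1 hn o.1.1).mono fun x hx => by
      rw [Set.mem_Iio] at hx ⊢
      omega) (by omega) le_rfl F.g0 le_rfl (rc_of_cont F.g1 (F.con _))
  rw [tau_self] at h2
  exact h1.trans h2

/-- **The facts at the centre**, both alternatives. -/
theorem Fac.cen' (F : Fac hn S P r P' o g α Q c) {E : ℝ} (hE0 : 0 < E)
    (hE : 1 - c < E + P g g ∨ 1 - c < E + bet (P' o.2) (cc hn o.1.1) (n - 2) g g) :
    Cen (P' o.2) (tht o.2) (cc hn o.1.1) (n - 1) P g (1 - c) E where
  x0 := F.g0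
  x1 := F.g1
  con i _ l _ := F.con _
  conQ := F.conP
  gre i hi l hl := F.gre i hi l hl.le
  vis i hi := by
    have h1 := F.le i hi g g F.g0 le_rfl F.gα
    have h2 : tht o.2 * g ≤ tht o.2 := mul_le_of_le_one_right (tht_pos _).le F.g1.le
    have h3 := F.thc
    linarith
  E0 := hE0
  top := by
    rcases hE with h | h
    · exact Or.inl h
    · refine Or.inr ⟨by omega, ?_⟩
      have e1 : n - 1 - 1 = n - 2 := by omega
      rw [e1]
      exact h

/-- **The joint chains** at finitely many good pairs near `g`, from either alternative. -/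
theorem Fac.jatN' (F : Fac hn S P r P' o g α Q c) (H : Pk hn S P r P' Λ) {E : ℝ} (hE0 : 0 < E)
    (hE : 1 - c < E + P g g ∨ 1 - c < E + bet (P' o.2) (cc hn o.1.1) (n - 2) g g) :
    ∃ ρ₀ : ℝ, 0 < ρ₀ ∧ ∀ ρ : ℝ, ρ ≤ ρ₀ →
      Pool.TRC.JatN S (cc hn o.1.1) (n - 1) (fun l => LL hn P P' o (l + 1)) g (AttC (P' o.2)) ρ
        E := by
  have hlow : ∀ l < n - 1, LL hn P P' o (l + 1) = bet (P' o.2) (cc hn o.1.1) l := fun l hl => by
    rw [LL_low (by omega) (by omega), Nat.add_sub_cancel]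
  have hlst : LL hn P P' o (n - 1 + 1) = P := LL_lst
  have hα := F.gα
  refine jatN_of (S := S) (θ := tht o.2) (P := P' o.2) H.ne (H.cht o.2) (tht_pos _) H.tmh
    (cc_inj1 hn _) (β := fun l => LL hn P P' o (l + 1)) hlow ?_ ?_ (x := g) (sg := 1 - c) ?_
    (fun a w haw _ _ ha1 => ⟨fun i _ l _ => haw.1.rc ha1 _ l i, fun i _ => haw.1.up _ i⟩)
    (ρT := (α - g) / 2) (by linarith) ?_
  · show Pool.LEV.Law (LL hn P P' o (n - 1 + 1))
    rw [hlst]
    exact H.tgs.law ()
  · intro a w hw hwa ha1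
    show a ≤ LL hn P P' o (n - 1 + 1) a w
    rw [hlst]
    exact H.tgs.low () a w hw.le hwa ha1
  · show Cen _ _ _ _ (LL hn P P' o (n - 1 + 1)) g (1 - c) E
    rw [hlst]
    exact F.cen' hE0 hE
  · intro a w haw hw hwa ha1 hag _
    show TgP S _ _ (LL hn P P' o (n - 1 + 1) a w) a w (1 - c)
    rw [hlst]
    refine F.tgP H hw hwa ?_ haw
    have := (abs_le.1 hag).2
    linarith

/-- **The joint chains with room**: all the levels at the centre plus `E` are below `1`. -/
theorem Fac.jatE (F : Fac hn S P r P' o g α Q c) (H : Pk hn S P r P' Λ) :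
    ∃ E ρ₀ : ℝ, 0 < E ∧ 0 < ρ₀ ∧ (∀ l ≤ n - 1, LL hn P P' o (l + 1) g g + E < 1) ∧
      ∀ ρ : ℝ, ρ ≤ ρ₀ →
        Pool.TRC.JatN S (cc hn o.1.1) (n - 1) (fun l => LL hn P P' o (l + 1)) g (AttC (P' o.2))
          ρ E := by
  have hc0 : 0 < c := (tht_pos _).trans F.thc
  obtain ⟨M, hM⟩ : ∃ M, M = max (P g g) (bet (P' o.2) (cc hn o.1.1) (n - 2) g g) := ⟨_, rfl⟩
  have hM1 : M ≤ 1 - c := by
    rw [hM]
    exact max_le ((F.PQ g g F.g0 le_rfl F.gα).trans F.Q1)
      (F.le (n - 2) (by omega) g g F.g0 le_rfl F.gα)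
  have hE0 : 0 < 1 - c / 2 - M := by linarith
  have hE : 1 - c < 1 - c / 2 - M + P g g ∨
      1 - c < 1 - c / 2 - M + bet (P' o.2) (cc hn o.1.1) (n - 2) g g := by
    rcases max_choice (P g g) (bet (P' o.2) (cc hn o.1.1) (n - 2) g g) with h | h
    · left
      rw [hM, h]
      linarith
    · right
      rw [hM, h]
      linarith
  obtain ⟨ρ₀, h1, h2⟩ := F.jatN' H hE0 hE
  refine ⟨1 - c / 2 - M, ρ₀, hE0, h1, fun l hl => ?_, h2⟩
  rcases Nat.lt_or_ge l (n - 1) with h3 | h3
  · have e1 : LL hn P P' o (l + 1) = bet (P' o.2) (cc hn o.1.1) l := by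
      rw [LL_low (by omega) (by omega), Nat.add_sub_cancel]
    have h4 := F.bet_le H h3
    have h5 : bet (P' o.2) (cc hn o.1.1) (n - 2) g g ≤ M := by
      rw [hM]
      exact le_max_right _ _
    rw [e1]
    linarith
  · have e2 : l = n - 1 := by omega
    subst e2
    have e1 : LL hn P P' o (n - 1 + 1) = P := LL_lst
    have h5 : P g g ≤ M := by
      rw [hM]
      exact le_max_left _ _
    rw [e1]
    linarith

/-- The levels below the last one are at least the diagonal of the window. -/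
theorem Fac.jatE_pos (F : Fac hn S P r P' o g α Q c) (H : Pk hn S P r P' Λ) :
    ∀ l ≤ n - 1, g ≤ LL hn P P' o (l + 1) g g := by
  intro l hl
  rcases Nat.lt_or_ge l (n - 1) with h3 | h3
  · have e1 : LL hn P P' o (l + 1) = bet (P' o.2) (cc hn o.1.1) l := by
      rw [LL_low (by omega) (by omega), Nat.add_sub_cancel]
    rw [e1]
    exact (H.cht o.2).low _ g g F.g0.le le_rfl F.g1.le
  · have e2 : l = n - 1 := by omega
    subst e2
    have e1 : LL hn P P' o (n - 1 + 1) = P := LL_lst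
    rw [e1]
    exact H.tgs.low () g g F.g0.le le_rfl F.g1.le

end Pool.PKG
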