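import Pool.Agent.H62.GEN.JatB
import Pool.Agent.H33.TRC.JatN

/-!
# Joint chains near a point of a class

`jatN_of`: the typed input `Pool.TRC.JatN` of the labels of universal degree, from the thresholds,
their upper diagonal derivatives at the points, the continuity of finitely many diagonals at the
centre, and the labels of the target at the points (`TgP`).
-/

set_option autoImplicit false

namespace Pool.JTN

open Finset Real MvPolynomial
open Pool.Agent.H49.Ent Pool.Agent.H32.Dense Pool.STK Pool.KA Pool.KSAT Pool.K2S Pool.PB Pool.S6C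
open Pool.GEN Pool.CHT
open Pool.LBT (LSys Slo Tri ThrOf)
open Pool.LEV (Law)

variable {m J : ℕ} {θ : ℝ} {S : PCl m} {P : List (Fin m) × Fin m → ℝ → ℝ → ℝ}

/-- **The facts at the centre** `x` of the cell. `sg`: the visibility of the target, `E`: the
exponent of the gradients of the target. -/
structure Cen (P : List (Fin m) × Fin m → ℝ → ℝ → ℝ) (θ : ℝ) (c : ℕ → Fin m) (r : ℕ)
    (Q : ℝ → ℝ → ℝ) (x sg E : ℝ) : Prop where
  x0 : 0 < x
  x1 : x < 1
  con : ∀ i < r, ∀ l ≤ i, ContinuousAt (fun v => tau P c l i v v) x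
  conQ : ContinuousAt (fun v => Q v v) x
  gre : ∀ i < r, ∀ l < i, bet P c l x x ≤ tau P c l i x x
  vis : ∀ i < r, bet P c i x x + θ * x < 1
  E0 : 0 < E
  top : sg < E + Q x x ∨ 1 ≤ r ∧ sg < E + bet P c (r - 1) x x

/-- The modulus of continuity of finitely many diagonals. -/
theorem mod_ex {x : ℝ} : ∀ (n : ℕ) {f : ℕ → ℝ → ℝ}, (∀ i < n, ContinuousAt (f i) x) →
    ∀ ω : ℝ, 0 < ω → ∃ ρ : ℝ, 0 < ρ ∧ ∀ v, |v - x| ≤ ρ → ∀ i < n, |f i v - f i x| ≤ ω := by
  intro n
  induction n with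
  | zero => exact fun _ ω _ => ⟨1, one_pos, fun v _ i hi => absurd hi (Nat.not_lt_zero i)⟩
  | succ n ih =>
    intro f hf ω hω
    obtain ⟨ρ, h1, h2⟩ := ih (fun i hi => hf i (by omega)) ω hω
    obtain ⟨ρ', h3, h4⟩ := Metric.continuousAt_iff.1 (hf n (by omega)) ω hω
    refine ⟨min ρ (ρ' / 2), lt_min h1 (by positivity), fun v hv i hi => ?_⟩
    rcases Nat.lt_or_ge i n with h5 | h5
    · exact h2 v (hv.trans (min_le_left _ _)) i h5
    · have : i = n := by omega
      subst this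
      have h6 := h4 (x := v) (by
        rw [Real.dist_eq]
        have := hv.trans (min_le_right _ _)
        linarith)
      rw [Real.dist_eq] at h6
      exact h6.le

/-- Values near the centre. -/
theorem near_val {f : ℝ → ℝ → ℝ} (hf : Law f) {x ω ρ a w : ℝ} (hw : 0 ≤ w) (hwa : w ≤ a)
    (ha : a ≤ 1) (h : ∀ v, |v - x| ≤ ρ → |f v v - f x x| ≤ ω) (h1 : |a - x| ≤ ρ)
    (h2 : |w - x| ≤ ρ) : |f a w - f x x| ≤ ω := by
  have h3 := hf.mono hw hwa le_rfl hwa le_rfl ha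
  have h4 := hf.mono hw le_rfl hwa le_rfl hwa ha
  have h5 := abs_le.1 (h a h1)
  have h6 := abs_le.1 (h w h2)
  rw [abs_le]
  constructor <;> linarith

/-- The modulus of the thresholds of the list and of the target. -/
theorem mod_all (hP : ThrOf (chsys m θ) S P) {c : ℕ → Fin m} {r : ℕ} {Q : ℝ → ℝ → ℝ}
    (hQ : Law Q) {x sg E : ℝ} (h : Cen P θ c r Q x sg E) {ω : ℝ} (hω : 0 < ω) :
    ∃ ρ : ℝ, 0 < ρ ∧ ∀ a w, 0 ≤ w → w ≤ a → a ≤ 1 → |a - x| ≤ ρ → |w - x| ≤ ρ →
      (∀ i < r, ∀ l ≤ i, |tau P c l i a w - tau P c l i x x| ≤ ω) ∧ |Q a w - Q x x| ≤ ω := by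
  obtain ⟨ρ, hρ, h1⟩ := mod_ex (x := x) (r * r) (f := fun n v =>
    if n % r ≤ n / r then tau P c (n % r) (n / r) v v else 0) (fun n hn => by
      have hr : 0 < r := by
        rcases Nat.eq_zero_or_pos r with h0 | h0
        · subst h0; omega
        · exact h0
      by_cases h2 : n % r ≤ n / r
      · simp only [if_pos h2]
        exact h.con (n / r) ((Nat.div_lt_iff_lt_mul hr).2 hn) (n % r) h2
      · simp only [if_neg h2]
        exact continuousAt_const) ω hω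
  obtain ⟨ρ', hρ', h2⟩ := mod_ex (x := x) 1 (f := fun _ v => Q v v) (fun _ _ => h.conQ) ω hω
  refine ⟨min ρ ρ', lt_min hρ hρ', fun a w hw hwa ha1 ha hx => ⟨fun i hi l hl => ?_, ?_⟩⟩
  · refine near_val (ρ := ρ) (hP.law _) hw hwa ha1 (fun v hv => ?_)
      (ha.trans (min_le_left _ _)) (hx.trans (min_le_left _ _))
    have hr : 0 < r := by omega
    have e1 : (i * r + l) / r = i := by
      rw [Nat.add_comm, Nat.add_mul_div_right _ _ hr, Nat.div_eq_of_lt (by omega), zero_add]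
    have e2 : (i * r + l) % r = l := by
      rw [Nat.add_comm, Nat.add_mul_mod_self_right, Nat.mod_eq_of_lt (by omega)]
    have h3 := h1 v hv (i * r + l) (by
      have : (i + 1) * r ≤ r * r := Nat.mul_le_mul_right r hi
      nlinarith)
    simp only [e1, e2, if_pos hl] at h3
    exact h3
  · exact near_val (ρ := ρ') hQ hw hwa ha1 (fun v hv => h2 v hv 0 one_pos)
      (ha.trans (min_le_right _ _)) (hx.trans (min_le_right _ _))

/-- **Joint chains near a point.** -/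
theorem jatN_of (hS0 : S.Ne) (hP : ThrOf (chsys m θ) S P) (hθ : 0 < θ) (hS : TmH S)
    {c : ℕ → Fin m} {r : ℕ} (hc : Set.InjOn c (Set.Iio r)) {β : ℕ → ℝ → ℝ → ℝ}
    (hβ : ∀ l < r, β l = bet P c l) (hQ : Law (β r))
    (hQl : ∀ a w, 0 < w → w ≤ a → a ≤ 1 → a ≤ β r a w) {x sg E : ℝ}
    (hx : Cen P θ c r (β r) x sg E) {Att : Set (ℝ × ℝ)}
    (hAtt : ∀ a w, (a, w) ∈ Att → 0 < w → w ≤ a → a < 1 →
      (∀ i < r, ∀ l ≤ i, Rc (tau P c l i) a w) ∧ ∀ i < r, Up1 (bet P c i) a w) {ρT : ℝ}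
    (hρT : 0 < ρT)
    (hT : ∀ a w, (a, w) ∈ Att → 0 < w → w ≤ a → a < 1 → |a - x| ≤ ρT → |w - x| ≤ ρT →
      TgP S c r (β r a w) a w sg) :
    ∃ ρ₀ : ℝ, 0 < ρ₀ ∧ ∀ ρ : ℝ, ρ ≤ ρ₀ → Pool.TRC.JatN S c r β x Att ρ E := by
  have hr0 : (0 : ℝ) ≤ r := Nat.cast_nonneg r
  have hx0 := hx.x0
  have hx1 := hx.x1
  have hE0 := hx.E0
  have hC0 : (0 : ℝ) ≤ Csl r r := Nat.cast_nonneg _
  -- the margins
  obtain ⟨μv, hμv, hμv'⟩ := fin_pos r (f := fun i => 1 - (bet P c i x x + θ * x))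
    (fun i hi => by
      have h1 := hx.vis i hi
      linarith)
  have hst : 0 < max (E + β r x x - sg) (if 1 ≤ r then E + bet P c (r - 1) x x - sg else 0) := by
    rw [lt_max_iff]
    rcases hx.top with h1 | ⟨h1, h2⟩
    · exact Or.inl (by linarith)
    · right
      rw [if_pos h1]
      linarith
  obtain ⟨s₀, hs₀⟩ : ∃ s₀ : ℝ, s₀ = max (E + β r x x - sg)
    (if 1 ≤ r then E + bet P c (r - 1) x x - sg else 0) := ⟨_, rfl⟩
  rw [← hs₀] at hst
  -- the exponents far from the centre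
  obtain ⟨ef, hef⟩ : ∃ ef : ℝ, ef = min (θ * x / 8) (E / (4 * (r + 1))) := ⟨_, rfl⟩
  have hef0 : 0 < ef := by
    rw [hef]
    exact lt_min (by positivity) (by positivity)
  have hef1 : ef ≤ θ * x / 8 := by rw [hef]; exact min_le_left _ _
  have hef2 : ef * (r + 1) ≤ E / 4 := by
    have h1 : ef ≤ E / (4 * (r + 1)) := by rw [hef]; exact min_le_right _ _
    rw [le_div_iff₀ (by positivity)] at h1
    linarith
  obtain ⟨ω, hω⟩ : ∃ ω : ℝ, ω = min (ef / (4 * (Csl r r + 1))) (min (μv / 4) (s₀ / 2)) := ⟨_, rfl⟩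
  have hω0 : 0 < ω := by
    rw [hω]
    exact lt_min (by positivity) (lt_min (by positivity) (by positivity))
  have hω1 : ω * (4 * (Csl r r + 1)) ≤ ef := by
    rw [← le_div_iff₀ (by positivity), hω]
    exact min_le_left _ _
  have hω2 : ω ≤ μv / 4 := by
    rw [hω]
    exact (min_le_right _ _).trans (min_le_left _ _)
  have hω3 : ω ≤ s₀ / 2 := by
    rw [hω]
    exact (min_le_right _ _).trans (min_le_right _ _)
  have hω4 : 4 * ω ≤ ef := by
    have h1 : ω * (4 * 1) ≤ ω * (4 * (Csl r r + 1)) :=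
      mul_le_mul_of_nonneg_left (by linarith) hω0.le
    linarith
  have hω5 : Csl r r * (2 * ω) < ef := by
    have h1 : ω * (4 * (Csl r r + 1)) = 2 * (Csl r r * (2 * ω)) + 4 * ω := by ring
    have h2 : 0 ≤ Csl r r * (2 * ω) := by positivity
    linarith
  obtain ⟨ρ₁, hρ₁, hmod⟩ := mod_all hP hQ hx hω0
  obtain ⟨ρ₀, hρ₀⟩ : ∃ ρ₀ : ℝ, ρ₀ = min (min ρ₁ ρT) (min (x / 2) (min ((1 - x) / 2)
    (μv / (4 * θ)))) := ⟨_, rfl⟩
  have hρ₀0 : 0 < ρ₀ := by
    rw [hρ₀]
    exact lt_min (lt_min hρ₁ hρT) (lt_min (by positivity) (lt_min (by linarith)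
      (by positivity)))
  have r1 : ρ₀ ≤ ρ₁ := by rw [hρ₀]; exact (min_le_left _ _).trans (min_le_left _ _)
  have r2 : ρ₀ ≤ ρT := by rw [hρ₀]; exact (min_le_left _ _).trans (min_le_right _ _)
  have r3 : ρ₀ ≤ x / 2 := by rw [hρ₀]; exact (min_le_right _ _).trans (min_le_left _ _)
  have r4 : ρ₀ ≤ (1 - x) / 2 := by
    rw [hρ₀]
    exact (min_le_right _ _).trans ((min_le_right _ _).trans (min_le_left _ _))
  have r5 : θ * ρ₀ ≤ μv / 4 := by
    have h1 : ρ₀ ≤ μv / (4 * θ) := by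
      rw [hρ₀]
      exact (min_le_right _ _).trans ((min_le_right _ _).trans (min_le_right _ _))
    rw [le_div_iff₀ (by positivity)] at h1
    linarith
  refine ⟨ρ₀, hρ₀0, fun ρ hρ e' he' => ?_⟩
  -- near the centre
  obtain ⟨en, hen⟩ : ∃ en : ℝ, en = min e' ef := ⟨_, rfl⟩
  have hen0 : 0 < en := by rw [hen]; exact lt_min he' hef0
  have hen1 : en ≤ e' := by rw [hen]; exact min_le_left _ _
  have hen2 : en ≤ ef := by rw [hen]; exact min_le_right _ _
  obtain ⟨ω', hω'⟩ : ∃ ω' : ℝ, ω' = min ω (en / (4 * (Csl r r + 1))) := ⟨_, rfl⟩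
  have hω'0 : 0 < ω' := by
    rw [hω']
    exact lt_min hω0 (by positivity)
  have hω'1 : ω' ≤ ω := by rw [hω']; exact min_le_left _ _
  have hω'2 : Csl r r * (2 * ω') < en := by
    have h1 : ω' ≤ en / (4 * (Csl r r + 1)) := by rw [hω']; exact min_le_right _ _
    rw [le_div_iff₀ (by positivity)] at h1
    have h2 : ω' * (4 * (Csl r r + 1)) = 2 * (Csl r r * (2 * ω')) + 4 * ω' := by ring
    have h3 : 0 ≤ Csl r r * (2 * ω') := by positivity
    linarith
  obtain ⟨ρ', hρ', hmod'⟩ := mod_all hP hQ hx hω'0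
  refine ⟨ρ', hρ', fun N a w haw φ hφ => ?_⟩
  classical
  obtain ⟨nr, hnr⟩ : ∃ nr : ℕ → Prop, nr = fun k => |a k - x| ≤ ρ' ∧ |w k - x| ≤ ρ' := ⟨_, rfl⟩
  obtain ⟨vs, hvs⟩ : ∃ vs : ℕ → ℝ, vs = fun k => if nr k then 2 * ω' else 2 * ω := ⟨_, rfl⟩
  obtain ⟨e, he⟩ : ∃ e : ℕ → ℝ, e = fun k => if nr k then en else ef := ⟨_, rfl⟩
  have hvs0 : ∀ k, 0 ≤ vs k := fun k => by
    rw [hvs]
    show 0 ≤ if nr k then 2 * ω' else 2 * ω
    split_ifs <;> positivity
  have hvs1 : ∀ k, vs k ≤ 2 * ω := fun k => by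
    rw [hvs]
    show (if nr k then 2 * ω' else 2 * ω) ≤ 2 * ω
    split_ifs
    · linarith
    · exact le_rfl
  have hev : ∀ k, Csl r r * vs k < e k := fun k => by
    rw [hvs, he]
    show Csl r r * (if nr k then 2 * ω' else 2 * ω) < if nr k then en else ef
    split_ifs
    · exact hω'2
    · exact hω5
  have he1 : ∀ k, e k ≤ ef := fun k => by
    rw [he]
    show (if nr k then en else ef) ≤ ef
    split_ifs
    · exact hen2
    · exact le_rfl
  have pos : ∀ k < N, 0 < w k := fun k hk => by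
    have h1 := abs_le.1 ((haw k hk).2.2.2.trans hρ)
    linarith [h1.1]
  have wa : ∀ k < N, w k ≤ a k := fun k hk => (haw k hk).2.1
  have lt : ∀ k < N, a k < 1 := fun k hk => by
    have h1 := abs_le.1 ((haw k hk).2.2.1.trans hρ)
    linarith [h1.2]
  have hwx : ∀ k < N, x / 2 ≤ w k := fun k hk => by
    have h1 := abs_le.1 ((haw k hk).2.2.2.trans hρ)
    linarith [h1.1]
  have hwx2 : ∀ k < N, w k ≤ x + ρ₀ := fun k hk => by
    have h1 := abs_le.1 ((haw k hk).2.2.2.trans hρ)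
    linarith [h1.2]
  have hfar : ∀ k < N, (∀ i < r, ∀ l ≤ i, |tau P c l i (a k) (w k) - tau P c l i x x| ≤ ω) ∧
      |β r (a k) (w k) - β r x x| ≤ ω := fun k hk =>
    hmod (a k) (w k) (pos k hk).le (wa k hk) (lt k hk).le ((haw k hk).2.2.1.trans (hρ.trans r1))
      ((haw k hk).2.2.2.trans (hρ.trans r1))
  have hdf : ∀ k < N, ∀ i < r, ∀ l ≤ i,
      |tau P c l i (a k) (w k) - tau P c l i x x| ≤ vs k / 2 := by
    intro k hk i hi l hl
    by_cases h1 : nr k
    · have h2 : vs k = 2 * ω' := by rw [hvs]; exact if_pos h1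
      rw [hnr] at h1
      rw [h2]
      have h3 := (hmod' (a k) (w k) (pos k hk).le (wa k hk) (lt k hk).le h1.1 h1.2).1 i hi l hl
      linarith
    · have h2 : vs k = 2 * ω := by rw [hvs]; exact if_neg h1
      rw [h2]
      have h3 := (hfar k hk).1 i hi l hl
      linarith
  have hptq : Ptq S P θ c r N a w vs (fun _ => ef) := by
    refine Ptq.of_up hS0 hP hθ hS hc (fun k _ => hvs0 k) (fun _ _ => hef0.le) pos wa lt
      (fun k hk => ?_) (fun k hk => (hAtt _ _ (haw k hk).1 (pos k hk) (wa k hk) (lt k hk)).1)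
      (fun k hk => (hAtt _ _ (haw k hk).1 (pos k hk) (wa k hk) (lt k hk)).2)
      (fun k hk i hi => ?_) (fun k hk i hi l hl => ?_)
    · have h1 := hvs1 k
      have h2 := mul_le_mul_of_nonneg_left (hwx k hk) hθ.le
      have h3 : 0 < θ * x := by positivity
      nlinarith
    · have h1 := abs_le.1 ((hfar k hk).1 i hi i le_rfl)
      rw [tau_self] at h1
      have h2 := hμv' i hi
      have h3 := mul_le_mul_of_nonneg_left (hwx2 k hk) hθ.le
      linarith [h1.2]
    · have h1 := abs_le.1 (hdf k hk l (hl.trans hi) l le_rfl)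
      have h2 := abs_le.1 (hdf k hk i hi l hl.le)
      have h3 := hx.gre i hi l hl
      rw [tau_self] at h1
      linarith [h1.2, h2.1]
  have hTk : ∀ k < N, TgP S c r (β r (a k) (w k)) (a k) (w k) sg := fun k hk =>
    hT _ _ (haw k hk).1 (pos k hk) (wa k hk) (lt k hk) ((haw k hk).2.2.1.trans (hρ.trans r2))
      ((haw k hk).2.2.2.trans (hρ.trans r2))
  obtain ⟨K, d, δ, K₁, h1, h2, h3⟩ := jatn_pts (E := fun _ => E) (sg := fun _ => sg)
    (P₀ := fun k => β r (a k) (w k)) hP hθ hS hc (fun k _ => hvs0 k) hptq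
    (fun k _ => hev k) (fun k _ => he1 k)
    (fun k hk => hQl _ _ (pos k hk) (wa k hk) (lt k hk).le) hTk
    (fun k' hk' k hk hak hwk => hQ.mono (pos k hk).le (wa k hk) hak hwk (wa k' hk') (lt k' hk').le)
    (fun k _ => by
      have h1 := hvs1 k
      have h2 := he1 k
      have h3 : (e k + vs k) * (r + 1) ≤ (ef + 2 * ω) * (r + 1) :=
        mul_le_mul_of_nonneg_right (by linarith) (by linarith)
      have h4 : 2 * ω * (r + 1) ≤ ef / 2 * (r + 1) :=
        mul_le_mul_of_nonneg_right (by linarith) (by linarith)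
      linarith)
    (fun k hk => by
      have h1 := abs_le.1 (hfar k hk).2
      have h2 : s₀ ≤ E + β r x x - sg ∨ s₀ ≤ if 1 ≤ r then E + bet P c (r - 1) x x - sg else 0 := by
        rw [← le_max_iff, hs₀]
      rcases h2 with h2 | h2
      · exact Or.inl (by linarith [h1.1])
      · right
        by_cases h3 : 1 ≤ r
        · rw [if_pos h3] at h2
          have h4 := abs_le.1 ((hfar k hk).1 (r - 1) (by omega) (r - 1) le_rfl)
          rw [tau_self] at h4
          exact ⟨h3, by linarith [h4.1]⟩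
        · rw [if_neg h3] at h2
          linarith) φ hφ
  refine ⟨K, d, δ, K₁, h1, h2, Bas.mono 0 h3 ?_⟩
  rintro J _ F A ⟨B, G, H, k1, k2, k3, k4⟩
  have hJ0 : (0 : ℝ) ≤ J := Nat.cast_nonneg J
  have hval : ∀ k, ∀ l < r + 1, ⌊(β l (a k) (w k) - d l) * (J : ℝ)⌋₊ =
      ⌊((if l < r then bet P c l (a k) (w k) else β r (a k) (w k)) - d l) * (J : ℝ)⌋₊ := by
    intro k l hl
    rcases Nat.lt_or_ge l r with h5 | h5
    · rw [if_pos h5, hβ l h5]
    · have : l = r := by omega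
      subst this
      rw [if_neg (lt_irrefl l)]
  obtain ⟨gf, hgf⟩ : ∃ gf : ℕ → ℕ → ℕ, gf = fun k l =>
    ⌊((if l < r then bet P c l (a k) (w k) else β r (a k) (w k)) - d l) * (J : ℝ)⌋₊ := ⟨_, rfl⟩
  obtain ⟨gn, hgn⟩ : ∃ gn : ℕ → ℕ → ℕ, gn = fun k l => ⌊(β l (a k) (w k) - d l) * (J : ℝ)⌋₊ :=
    ⟨_, rfl⟩
  have hgg : ∀ k, ∀ l < r + 1, gn k l = gf k l := fun k l hl => by
    rw [hgn, hgf]
    exact hval k l hl
  rw [← hgf] at k3
  have hbx : ∀ {k : ℕ} {G : ℕ → MvPolynomial (Option (Fin m)) ℝ} {x : ℕ} {t : ℝ} {l : ℕ}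
      {b : Option (Fin m) → ℝ}, l ≤ r + 1 → NBx c G (gn k) x t l b → NBx c G (gf k) x t l b := by
    intro k G x t l b hl hb
    refine ⟨hb.1, fun j hj => ?_⟩
    rw [← hgg k j (by omega)]
    exact hb.2 j hj
  have hok : ∀ k, ∀ (r' e : ℕ), r' ≤ r + 1 → ChOK F c r' (fun _ => K) ⌊a k * J⌋₊ ⌊w k * J⌋₊ e (gf k) B
      (G k) (H k) → ChOK F c r' (fun _ => K) ⌊a k * J⌋₊ ⌊w k * J⌋₊ e (gn k) B (G k) (H k) := by
    intro k r' e hr' h
    refine ⟨h.degG, h.degH, h.depG, h.depH, fun ω hω i hi => ?_, fun ω hω i hi b hb => ?_,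
      fun ω hω i hi b hb l hl => ?_⟩
    · rw [hgg k i (by omega)]
      exact h.pos ω hω i hi
    · rw [hgg k i (by omega)]
      exact h.agr ω hω i hi b (hbx (by omega) hb)
    · rw [nlp_congr (g := gn k) (g' := gf k) fun j hj => hgg k j (by omega)]
      exact h.lip ω hω i hi b (hbx (by omega) hb) l hl
  refine ⟨B, G, H, k1, k2, ⟨fun k hk => ?_, fun k' hk' k hk hR l hl ω hω b hb => ?_,
    fun k' hk' k hk hR l hl ω hω b hb => ?_, fun k hk l hl ω hω b hb => ?_⟩,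
    fun k hk h4 h5 => ?_⟩
  · have h6 := hok k (r + 1) _ le_rfl (k3.ok k hk)
    rw [hgn] at h6
    exact h6
  · rw [show ⌊(β l (a k) (w k) - d l) * (J : ℝ)⌋₊ = gf k l by rw [hval k l hl, hgf]]
    refine k3.uni k' hk' k hk hR l hl ω hω b (hbx (by omega) ?_)
    rw [hgn]
    exact hb
  · rw [show ⌊(β l (a k) (w k) - d l) * (J : ℝ)⌋₊ = gf k l by rw [hval k l hl, hgf]]
    refine k3.two k' hk' k hk hR l hl ω hω b (hbx (by omega) ?_)
    rw [hgn]
    exact hb
  · refine k3.siz k hk l hl ω hω b (hbx (by omega) ?_)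
    rw [hgn]
    exact hb
  · have h6 := k4 k hk
    rw [show (fun l => ⌊((if l < r then bet P c l (a k) (w k) else β r (a k) (w k)) - d l) *
      (J : ℝ)⌋₊) = gf k by rw [hgf]] at h6
    have h7 := hok k r _ (by omega) (h6.mono le_rfl (fun _ => le_rfl) le_rfl
      (Nat.floor_le_floor (mul_le_mul_of_nonneg_right (show e k ≤ e' by
        have h8 : e k = en := by
          rw [he]
          exact if_pos (by rw [hnr]; exact ⟨h4, h5⟩)
        rw [h8]
        exact hen1) hJ0)))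
    rw [hgn] at h7
    exact h7

end Pool.JTN
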