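import Pool.Agent.H62.GEN.JatA

/-!
# A label of the target on the top of the chains of several points (class level)

`TgP`: a label of the target at the point `(a, w)`, over any coordinates of the list.
`jatn_pts`: the joint chains of the coordinates of the list and of the target, at finitely many
points.
-/

set_option autoImplicit false

namespace Pool.JTN

open Finset Real MvPolynomial
open Pool.Agent.H49.Ent Pool.Agent.H32.Dense Pool.STK Pool.KA Pool.KSAT Pool.K2S Pool.PB Pool.S6C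
open Pool.GEN Pool.CHT
open Pool.LBT (LSys Slo Tri ThrOf)
open Pool.LEV (Law)
open Pool.FRN (Relv foreign own_ext uni_s)

variable {m J : ℕ} {θ : ℝ} {S : PCl m} {P : List (Fin m) × Fin m → ℝ → ℝ → ℝ}

/-- **A label of the target** `c r` at the point `(a, w)`: over any coordinates of the list
`c 0, …, c (r - 1)`, with the precision `P₀`, visible up to `sg`. -/
def TgP (S : PCl m) (c : ℕ → Fin m) (r : ℕ) (P₀ a w sg : ℝ) : Prop :=
  ∀ ε : ℝ, 0 < ε → ∃ (K' : ℕ) (K₁ : ℝ), 0 < K₁ ∧ Bas S (fun J F A =>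
    ∃ (B : F.Ω → Prop) (c' : ℕ → Fin m) (i e' : ℕ) (q : ℕ → ℕ), Sub B A ∧
      Pe F.p A ≤ K₁ * Pe F.p B ∧ i ≤ r ∧ Set.InjOn c' (Set.Iio i) ∧
      (∀ l < i, ∃ j < r, c' l = c j) ∧ c' i = c r ∧
      ChN F c' (i + 1) (fun _ => K') ⌊a * J⌋₊ ⌊w * J⌋₊ e' q B ∧ (P₀ - ε) * J ≤ q i ∧
      ∀ l ≤ i, ((e' + q l : ℕ) : ℝ) ≤ (sg + ε) * J)

/-- Finitely many hereditary statements on one event. -/
theorem bas_iter {Ψ : ℕ → Stat m} (hΨ : ∀ k J (F : Fam m J) (B B' : F.Ω → Prop), Sub B' B →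
    Ψ k J F B → Ψ k J F B') : ∀ N : ℕ, (∀ k < N, ∃ K₁ : ℝ, 0 < K₁ ∧
      Bas S (fun J F A => ∃ B : F.Ω → Prop, Sub B A ∧ Pe F.p A ≤ K₁ * Pe F.p B ∧ Ψ k J F B)) →
    ∃ K₁ : ℝ, 0 < K₁ ∧ Bas S (fun J F A => ∃ B : F.Ω → Prop, Sub B A ∧
      Pe F.p A ≤ K₁ * Pe F.p B ∧ ∀ k < N, Ψ k J F B) := by
  intro N
  induction N with
  | zero =>
    exact fun _ => ⟨1, one_pos, 1, one_pos, 0, fun J _ F A _ => ⟨A, fun _ h => h, by rw [one_mul],
      fun k hk => absurd hk (Nat.not_lt_zero k)⟩⟩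
  | succ N ih =>
    intro h
    obtain ⟨K₁, h1, h2⟩ := ih fun k hk => h k (by omega)
    obtain ⟨K₂, h3, h4⟩ := h N (by omega)
    refine ⟨K₁ * K₂, by positivity, Bas.mono 0 (h2.and (bas_ev h4
      (show 0 < 1 / K₁ by positivity))) ?_⟩
    rintro J _ F A ⟨⟨B, k1, k2, k3⟩, k4⟩
    obtain ⟨B', l1, l2, l3⟩ := k4 B k1 (by
      rw [div_mul_eq_mul_div, one_mul, div_le_iff₀ h1]
      linarith)
    refine ⟨B', fun ω hω => k1 ω (l1 ω hω), ?_, fun k hk => ?_⟩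
    · calc Pe F.p A ≤ K₁ * Pe F.p B := k2
        _ ≤ K₁ * (K₂ * Pe F.p B') := mul_le_mul_of_nonneg_left l2 h1.le
        _ = _ := by ring
    · rcases Nat.lt_or_ge k N with h5 | h5
      · exact hΨ k J F B B' l1 (k3 k h5)
      · have : k = N := by omega
        subst this
        exact l3

/-! ### The numbers -/

/-- The precisions of a sorted list, up to a slowness. -/
theorem num_nlp {r J : ℕ} {b d : ℕ → ℝ} {vs y : ℝ} (hs : ∀ i < r, ∀ l < i, b l ≤ b i + vs)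
    (hd : ∀ l < r, 0 < d l ∧ d l ≤ y) (hb : ∀ l < r, d l ≤ b l) :
    ∀ i < r, ∀ l < i, nlp (fun l => ⌊(b l - d l) * J⌋₊) l i ≤ ⌊(vs + y) * J⌋₊ + 1 := by
  intro i hi l hl
  have hJ0 : (0 : ℝ) ≤ J := Nat.cast_nonneg J
  unfold nlp
  rw [Nat.sub_le_iff_le_add]
  refine Finset.sup_le fun j hj => ?_
  rw [Finset.mem_Icc] at hj
  show ⌊(b j - d j) * J⌋₊ ≤ ⌊(vs + y) * J⌋₊ + 1 + ⌊(b i - d i) * J⌋₊
  rcases Nat.lt_or_ge j i with h1 | h1
  · have h2 : (⌊(b j - d j) * J⌋₊ : ℝ) ≤ (b j - d j) * J :=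
      Nat.floor_le (mul_nonneg (by linarith [hb j (by omega)]) hJ0)
    have h3 := Nat.lt_floor_add_one ((b i - d i) * (J : ℝ))
    have h4 := Nat.lt_floor_add_one ((vs + y) * (J : ℝ))
    have h5 := mul_le_mul_of_nonneg_right (hs i hi j h1) hJ0
    have h6 := mul_le_mul_of_nonneg_right (hd i hi).2 hJ0
    have h7 := mul_nonneg (hd j (by omega)).1.le hJ0
    have h8 : ((⌊(b j - d j) * J⌋₊ : ℕ) : ℝ) <
        ((⌊(vs + y) * J⌋₊ + 1 + ⌊(b i - d i) * J⌋₊ + 1 : ℕ) : ℝ) := by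
      push_cast
      linarith only [h2, h3, h4, h5, h6, h7]
    have h9 : ⌊(b j - d j) * J⌋₊ < ⌊(vs + y) * J⌋₊ + 1 + ⌊(b i - d i) * J⌋₊ + 1 := by
      exact_mod_cast h8
    omega
  · have : j = i := by omega
    subst this
    omega

/-- The exponent of the gradients. -/
theorem num_e {r J L' : ℕ} {e vs y η ρ E : ℝ} (he : 0 ≤ e) (hvs : 0 ≤ vs) (hy : 0 ≤ y) (hη : 0 ≤ η)
    (h1 : (e + vs) * (r + 1) + ρ ≤ E) (h2 : η ≤ ρ / 8) (h3 : y * (r + 1) ≤ ρ / 8)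
    (h4 : (L' : ℝ) + 3 * (r + 1) ≤ ρ / 4 * J) :
    ⌊η * J⌋₊ + L' + (⌊e * J⌋₊ + (⌊(vs + y) * J⌋₊ + 1) + 2) * (r + 1) ≤ ⌊E * J⌋₊ := by
  have hJ0 : (0 : ℝ) ≤ J := Nat.cast_nonneg J
  have hr0 : (0 : ℝ) ≤ r := Nat.cast_nonneg r
  refine Nat.le_floor ?_
  have k1 : (⌊η * J⌋₊ : ℝ) ≤ η * J := Nat.floor_le (mul_nonneg hη hJ0)
  have k2 : (⌊e * J⌋₊ : ℝ) ≤ e * J := Nat.floor_le (mul_nonneg he hJ0)
  have k3 : (⌊(vs + y) * J⌋₊ : ℝ) ≤ (vs + y) * J :=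
    Nat.floor_le (mul_nonneg (by linarith) hJ0)
  have k4 : ((⌊e * J⌋₊ : ℝ) + (⌊(vs + y) * J⌋₊ + 1) + 2) * (r + 1) ≤
      ((e + vs + y) * J + 3) * (r + 1) := by
    refine mul_le_mul_of_nonneg_right ?_ (by linarith)
    linarith only [k2, k3]
  have k5 := mul_le_mul_of_nonneg_right h1 hJ0
  have k6 := mul_le_mul_of_nonneg_right h2 hJ0
  have k7 := mul_le_mul_of_nonneg_right h3 hJ0
  have k8 : 0 ≤ η * J := mul_nonneg hη hJ0
  push_cast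
  linarith only [k1, k4, k5, k6, k7, k8, h4]

/-- The visibility of the target. -/
theorem num_s {i J e' p q : ℕ} {g' : ℕ → ℕ} {sg ε η ρ E P₀ b x : ℝ} (hη : 0 ≤ η)
    (h1 : ∀ l ≤ i, ((e' + g' l : ℕ) : ℝ) ≤ (sg + ε) * J)
    (h2 : (sg + ρ ≤ E + P₀ ∧ (P₀ - x) * J ≤ p + 1) ∨ (sg + ρ ≤ E + b ∧ (b - x) * J ≤ q + 1))
    (h3 : x + ε + η ≤ ρ / 2) (h4 : 2 ≤ ρ / 2 * J) :
    ⌊η * J⌋₊ + e' + (Finset.Icc 0 i).sup g' ≤ ⌊E * J⌋₊ + max q p := by
  have hJ0 : (0 : ℝ) ≤ J := Nat.cast_nonneg J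
  obtain ⟨l, hl, he⟩ := Finset.exists_mem_eq_sup (Finset.Icc 0 i) ⟨0, by simp⟩ g'
  rw [he]
  have k1 := h1 l (Finset.mem_Icc.1 hl).2
  have k2 : (⌊η * J⌋₊ : ℝ) ≤ η * J := Nat.floor_le (mul_nonneg hη hJ0)
  have k3 := Nat.lt_floor_add_one (E * (J : ℝ))
  have k4 := mul_le_mul_of_nonneg_right h3 hJ0
  push_cast at k1
  have k5 : ((⌊η * J⌋₊ + e' + g' l : ℕ) : ℝ) < ((⌊E * J⌋₊ + max q p + 1 : ℕ) : ℝ) := by
    push_cast
    rcases h2 with ⟨h5, h6⟩ | ⟨h5, h6⟩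
    · have k6 := mul_le_mul_of_nonneg_right h5 hJ0
      have k7 : (p : ℝ) ≤ max (q : ℝ) p := le_max_right _ _
      linarith only [k1, k2, k3, k4, k6, k7, h6, h4]
    · have k6 := mul_le_mul_of_nonneg_right h5 hJ0
      have k7 : (q : ℝ) ≤ max (q : ℝ) p := le_max_left _ _
      linarith only [k1, k2, k3, k4, k6, k7, h6, h4]
  have k6 : ⌊η * J⌋₊ + e' + g' l < ⌊E * J⌋₊ + max q p + 1 := by exact_mod_cast k5
  omega

/-! ### Renaming of the list -/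

theorem DepC.of_pch {c : ℕ → Fin m} {r i : ℕ} {Q : MvPolynomial (Option (Fin m)) ℝ}
    (h : DepC (pch c r (c r)) i Q) : DepC c i Q := by
  intro b b' hn hb
  refine h b b' hn fun l hl => ?_
  rcases Nat.lt_or_ge l r with h1 | h1
  · rw [pch_lt h1]
    exact hb l hl
  · have e1 : pch c r (c r) l = c r := if_neg (by omega)
    rw [e1]
    exact hb r (by omega)

theorem NBx.of_pch {c : ℕ → Fin m} {r i a : ℕ} {t : ℝ} {G : ℕ → MvPolynomial (Option (Fin m)) ℝ}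
    {g : ℕ → ℕ} {b : Option (Fin m) → ℝ} (hi : i ≤ r + 1) :
    NBx (pch c r (c r)) G g a t i b ↔ NBx c G g a t i b := by
  have e1 : ∀ l < i, pch c r (c r) l = c l := by
    intro l hl
    rcases Nat.lt_or_ge l r with h1 | h1
    · exact pch_lt h1
    · have : l = r := by omega
      subst this
      exact pch_self
  constructor
  · intro h
    refine ⟨h.1, fun l hl => ?_⟩
    have h1 := h.2 l hl
    rwa [e1 l hl] at h1
  · intro h
    refine ⟨h.1, fun l hl => ?_⟩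
    rw [e1 l hl]
    exact h.2 l hl

theorem pch_eq {c : ℕ → Fin m} {r l : ℕ} (hl : l < r + 1) : pch c r (c r) l = c l := by
  rcases Nat.lt_or_ge l r with h1 | h1
  · exact pch_lt h1
  · have : l = r := by omega
    subst this
    exact pch_self

theorem ChOK.of_pch {F : Fam m J} {c : ℕ → Fin m} {r : ℕ} {K : ℕ → ℕ} {a w e : ℕ} {g : ℕ → ℕ}
    {A : F.Ω → Prop} {G : PtT F → ℕ → MvPolynomial (Option (Fin m)) ℝ}
    {H : LnT F → ℕ → MvPolynomial (Option (Fin m)) ℝ}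
    (h : ChOK F (pch c r (c r)) (r + 1) K a w e g A G H) : ChOK F c (r + 1) K a w e g A G H where
  degG := h.degG
  degH := h.degH
  depG y i := DepC.of_pch (h.depG y i)
  depH s i := DepC.of_pch (h.depH s i)
  pos ω hω i hi := by
    have h1 := h.pos ω hω i hi
    rwa [pch_eq hi] at h1
  agr ω hω i hi b hb := h.agr ω hω i hi b ((NBx.of_pch hi.le).2 hb)
  lip ω hω i hi b hb l hl := by
    have h1 := h.lip ω hω i hi b ((NBx.of_pch hi.le).2 hb) l hl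
    rwa [pch_eq (hl.trans hi)] at h1

theorem MCq.of_pch {F : Fam m J} {c : ℕ → Fin m} {r : ℕ} {K : ℕ → ℕ} {N : ℕ} {R : ℕ → ℕ → Prop}
    {a w : ℕ → ℕ} {e : ℕ → ℕ} {g : ℕ → ℕ → ℕ} {δ : ℕ → ℕ} {B : F.Ω → Prop}
    {G : ℕ → PtT F → ℕ → MvPolynomial (Option (Fin m)) ℝ}
    {H : ℕ → LnT F → ℕ → MvPolynomial (Option (Fin m)) ℝ}
    (h : MCq F (pch c r (c r)) (r + 1) K N R a w e g δ B G H) :
    MCq F c (r + 1) K N R a w e g δ B G H where
  ok k hk := ChOK.of_pch (h.ok k hk)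
  uni k' hk' k hk hR l hl ω hω b hb :=
    h.uni k' hk' k hk hR l hl ω hω b ((NBx.of_pch hl.le).2 hb)
  two k' hk' k hk hR l hl ω hω b hb :=
    h.two k' hk' k hk hR l hl ω hω b ((NBx.of_pch hl.le).2 hb)
  siz k hk l hl ω hω b hb := by
    have h1 := h.siz k hk l hl ω hω b ((NBx.of_pch hl.le).2 hb)
    rwa [pch_eq hl] at h1

/-- The first coordinates, with the own exponent. -/
theorem low_ok {F : Fam m J} {c : ℕ → Fin m} {r : ℕ} {K K₂ : ℕ → ℕ} {a w e e₂ : ℕ} {g g₂ : ℕ → ℕ}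
    {A B : F.Ω → Prop} {G G₂ : PtT F → ℕ → MvPolynomial (Option (Fin m)) ℝ}
    {H H₂ : LnT F → ℕ → MvPolynomial (Option (Fin m)) ℝ} (h : ChOK F c r K a w e g A G H)
    (hB : Sub B A) (h₂ : ChOK F c (r + 1) K₂ a w e₂ g₂ B G₂ H₂) (hg : ∀ l < r, g₂ l = g l)
    (hG : ∀ y, ∀ l < r, G₂ y l = G y l) :
    ChOK F c r K₂ a w e g₂ B G₂ H₂ := by
  have hbx : ∀ {y : PtT F} {t : ℝ} {i : ℕ} {b : Option (Fin m) → ℝ}, i ≤ r →
      NBx c (G₂ y) g₂ a t i b → NBx c (G y) g a t i b := by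
    intro y t i b hi hb
    refine ⟨hb.1, fun l hl => ?_⟩
    have h1 := hb.2 l hl
    rwa [hG y l (by omega), hg l (by omega)] at h1
  refine ⟨h₂.degG, h₂.degH, h₂.depG, h₂.depH, fun ω hω i hi => h₂.pos ω hω i (by omega),
    fun ω hω i hi => h₂.agr ω hω i (by omega), fun ω hω i hi b hb l hl => ?_⟩
  rw [hG _ i hi]
  refine (h.lip ω (hB ω hω) i hi b (hbx hi.le hb) l hl).trans (le_of_eq ?_)
  rw [nlp_congr (g := g) (g' := g₂) fun j hj => (hg j (by omega)).symm]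

/-- **Joint chains of the list and of the target** at finitely many points. -/
theorem jatn_pts (hP : ThrOf (chsys m θ) S P) (hθ : 0 < θ) (hS : TmH S) {c : ℕ → Fin m}
    {r N : ℕ} (hc : Set.InjOn c (Set.Iio r)) {a w vs e₀ e E sg P₀ : ℕ → ℝ}
    (hvs : ∀ k < N, 0 ≤ vs k) (h : Ptq S P θ c r N a w vs e₀)
    (he : ∀ k < N, Csl r r * vs k < e k) (he₀ : ∀ k < N, e k ≤ e₀ k)
    (hlow : ∀ k < N, a k ≤ P₀ k)
    (hT : ∀ k < N, TgP S c r (P₀ k) (a k) (w k) (sg k))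
    (hmon : ∀ k' < N, ∀ k < N, a k ≤ a k' → w k ≤ w k' → P₀ k ≤ P₀ k')
    (hE1 : ∀ k < N, (e k + vs k) * (r + 1) < E k)
    (hE2 : ∀ k < N, sg k < E k + P₀ k ∨ 1 ≤ r ∧ sg k < E k + bet P c (r - 1) (a k) (w k)) :
    ∀ φ : ℝ, 0 < φ → ∃ (K : ℕ) (d δ : ℕ → ℝ) (K₁ : ℝ), 0 < K₁ ∧
    (∀ l ≤ r, 0 < d l ∧ d l ≤ φ ∧ 0 ≤ δ l ∧ δ l ≤ φ) ∧
    Bas S (fun J F A => ∃ (B : F.Ω → Prop)
      (G : ℕ → PtT F → ℕ → MvPolynomial (Option (Fin m)) ℝ)
      (H : ℕ → LnT F → ℕ → MvPolynomial (Option (Fin m)) ℝ), Sub B A ∧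
      Pe F.p A ≤ K₁ * Pe F.p B ∧
      MCq F c (r + 1) (fun _ => K) N (fun k k' => a k ≤ a k' ∧ w k ≤ w k')
        (fun k => ⌊a k * J⌋₊) (fun k => ⌊w k * J⌋₊) (fun k => ⌊E k * J⌋₊)
        (fun k l => ⌊((if l < r then bet P c l (a k) (w k) else P₀ k) - d l) * J⌋₊)
        (fun l => ⌊δ l * J⌋₊) B G H ∧
      ∀ k < N, ChOK F c r (fun _ => K) ⌊a k * J⌋₊ ⌊w k * J⌋₊ ⌊e k * J⌋₊
        (fun l => ⌊((if l < r then bet P c l (a k) (w k) else P₀ k) - d l) * J⌋₊) B (G k) (H k)) := by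
  classical
  intro φ hφ
  have hr0 : (0 : ℝ) ≤ r := Nat.cast_nonneg r
  -- the parameters
  obtain ⟨μ, hμ, hμw⟩ := fin_pos N h.pos
  obtain ⟨ρ, hρ, hρE⟩ := fin_pos N (f := fun k => min (E k - (e k + vs k) * (r + 1))
    (max (E k + P₀ k - sg k) (if 1 ≤ r then E k + bet P c (r - 1) (a k) (w k) - sg k else 0)))
    (fun k hk => by
      refine lt_min (by linarith [hE1 k hk]) (lt_max_iff.2 ?_)
      rcases hE2 k hk with h1 | ⟨h1, h2⟩
      · exact Or.inl (by linarith)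
      · right
        rw [if_pos h1]
        linarith)
  have hρ1 : ∀ k < N, (e k + vs k) * (r + 1) + ρ ≤ E k := fun k hk => by
    have h1 := (hρE k hk).trans (min_le_left _ _)
    linarith
  have hρ2 : ∀ k < N, sg k + ρ ≤ E k + P₀ k ∨
      1 ≤ r ∧ sg k + ρ ≤ E k + bet P c (r - 1) (a k) (w k) := by
    intro k hk
    have h1 := (hρE k hk).trans (min_le_right _ _)
    rcases le_max_iff.1 h1 with h2 | h2
    · exact Or.inl (by linarith)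
    · right
      split_ifs at h2 with h3
      · exact ⟨h3, by linarith⟩
      · linarith
  obtain ⟨x, hx⟩ : ∃ x : ℝ, x = min φ (min (μ / 2) (ρ / 8)) := ⟨_, rfl⟩
  have hx0 : 0 < x := by rw [hx]; exact lt_min hφ (lt_min (by positivity) (by positivity))
  have hx1 : x ≤ φ := by rw [hx]; exact min_le_left _ _
  have hx2 : x ≤ μ / 2 := by rw [hx]; exact (min_le_right _ _).trans (min_le_left _ _)
  have hx3 : x ≤ ρ / 8 := by rw [hx]; exact (min_le_right _ _).trans (min_le_right _ _)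
  -- the labels of the target
  have hT' : ∀ k, ∃ (K' : ℕ) (K₁ : ℝ), 0 < K₁ ∧ (k < N → Bas S (fun J F A =>
      ∃ (B : F.Ω → Prop) (c' : ℕ → Fin m) (i e' : ℕ) (q : ℕ → ℕ), Sub B A ∧
      Pe F.p A ≤ K₁ * Pe F.p B ∧ i ≤ r ∧ Set.InjOn c' (Set.Iio i) ∧
      (∀ l < i, ∃ j < r, c' l = c j) ∧ c' i = c r ∧
      ChN F c' (i + 1) (fun _ => K') ⌊a k * J⌋₊ ⌊w k * J⌋₊ e' q B ∧ (P₀ k - x / 4) * J ≤ q i ∧
      ∀ l ≤ i, ((e' + q l : ℕ) : ℝ) ≤ (sg k + x / 4) * J)) := by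
    intro k
    by_cases hk : k < N
    · obtain ⟨K', K₁, h1, h2⟩ := hT k hk (x / 4) (by positivity)
      exact ⟨K', K₁, h1, fun _ => h2⟩
    · exact ⟨0, 1, one_pos, fun h => absurd h hk⟩
  choose Kp K₁p hK₁p hTp using hT'
  obtain ⟨K', hK'⟩ : ∃ K', K' = ∑ k ∈ range N, Kp k := ⟨_, rfl⟩
  have hKp : ∀ k < N, Kp k ≤ K' := fun k hk => by
    rw [hK']
    exact Finset.single_le_sum (f := Kp) (fun _ _ => Nat.zero_le _) (mem_range.2 hk)
  obtain ⟨K₂, hK₂, hTall⟩ := bas_iter (S := S)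
    (Ψ := fun k J F B => ∃ (c' : ℕ → Fin m) (i e' : ℕ) (q : ℕ → ℕ), i ≤ r ∧
      Set.InjOn c' (Set.Iio i) ∧ (∀ l < i, ∃ j < r, c' l = c j) ∧ c' i = c r ∧
      ChN F c' (i + 1) (fun _ => K') ⌊a k * J⌋₊ ⌊w k * J⌋₊ e' q B ∧ (P₀ k - x / 4) * J ≤ q i ∧
      ∀ l ≤ i, ((e' + q l : ℕ) : ℝ) ≤ (sg k + x / 4) * J)
    (fun k J F B B' hB => by
      rintro ⟨c', i, e', q, h1, h2, h3, h4, h5, h6, h7⟩
      exact ⟨c', i, e', q, h1, h2, h3, h4, ChN.hered F _ _ _ _ _ _ _ B B' hB h5, h6, h7⟩) N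
    (fun k hk => by
      refine ⟨K₁p k, hK₁p k, Bas.mono 0 (hTp k hk) ?_⟩
      rintro J _ F A ⟨B, c', i, e', q, h0, h0', h1, h2, h3, h4, ⟨G', H', h5⟩, h6, h7⟩
      exact ⟨B, h0, h0', c', i, e', q, h1, h2, h3, h4,
        ⟨G', H', h5.mono le_rfl (fun _ => hKp k hk) le_rfl le_rfl⟩, h6, h7⟩)
  obtain ⟨L, htop⟩ := mcq_top r K' N
  obtain ⟨η, hη⟩ : ∃ η : ℝ, η = x / (8 * (L + 1)) := ⟨_, rfl⟩
  have hL0 : (0 : ℝ) ≤ L := Nat.cast_nonneg L
  have hη0 : 0 < η := by rw [hη]; positivity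
  have hηL : L * η ≤ x / 8 := by
    rw [hη, mul_div_assoc', div_le_div_iff₀ (by positivity) (by norm_num)]
    nlinarith
  have hηx : η ≤ x / 8 := by
    rw [hη]
    exact div_le_div_of_nonneg_left hx0.le (by norm_num) (by linarith)
  -- no relation
  obtain ⟨D, hD⟩ : ∃ D, D = max K' 1 := ⟨_, rfl⟩
  have hrel : ∀ k, ∃ φ' : ℕ → ℕ → ℝ, (∀ l n, 0 < φ' l n) ∧ (k < N → ∀ (K : ℕ → ℕ) (d : ℕ → ℝ),
      Hie φ' r K d → Bas S (RelvS c r K (fun l => bet P c l (a k) (w k)) d (a k) (w k) (e₀ k) D η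
        (1 / 2))) := by
    intro k
    by_cases hk : k < N
    · obtain ⟨φ', h1, h3⟩ := h.rel k hk D η hη0
      exact ⟨φ', h1, fun _ K d hd => h3 r le_rfl K d hd (1 / 2) (by norm_num)⟩
    · exact ⟨fun _ _ => 1, fun _ _ => one_pos, fun h => absurd h hk⟩
  choose φ₁ hφ₁ hrel using hrel
  have hψ : ∀ l n, ∃ y : ℝ, 0 < y ∧ ∀ k < N, y ≤ φ₁ k l n := fun l n =>
    fin_pos N fun k _ => hφ₁ k l n
  choose ψ hψ0 hψ1 using hψ
  obtain ⟨y, hy⟩ : ∃ y : ℝ, y = x / (r + 1) := ⟨_, rfl⟩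
  have hy0 : 0 < y := by rw [hy]; positivity
  have hyr : y * (r + 1) = x := by
    rw [hy]
    field_simp
  have hyx : y ≤ x := by
    have : y * 1 ≤ y * (r + 1) := mul_le_mul_of_nonneg_left (by linarith) hy0.le
    linarith
  obtain ⟨K, d₀, δ₀, K₁, hK₁, -, hd₀, hδ₀, hlow'⟩ := jattq hP hθ hS hc hvs h r le_rfl
    (fun l n => min (ψ l n) y) (fun l n => lt_min (hψ0 l n) hy0) e he he₀
  obtain ⟨Kt, hKt⟩ : ∃ Kt : ℕ → ℕ, Kt = fun l => if l < r then K l else 0 := ⟨_, rfl⟩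
  have hKl : ∀ l < r, Kt l = K l := fun l hl => by rw [hKt]; exact if_pos hl
  obtain ⟨Kc, hKc⟩ : ∃ Kc, Kc = ∑ l ∈ range r, K l := ⟨_, rfl⟩
  have hKc' : ∀ l, Kt l ≤ Kc := by
    intro l
    rcases Nat.lt_or_ge l r with h1 | h1
    · rw [hKl l h1, hKc]
      exact Finset.single_le_sum (f := K) (fun _ _ => Nat.zero_le _) (mem_range.2 h1)
    · rw [hKt]
      show (if l < r then K l else 0) ≤ _
      rw [if_neg (by omega)]
      exact Nat.zero_le _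
  have hd' : Hie (fun l n => min (ψ l n) y) r Kt d₀ := hd₀.congr hKl fun _ _ => rfl
  have hdy : ∀ l < r, 0 < d₀ l ∧ d₀ l ≤ y := fun l hl =>
    ⟨(hd₀ l hl).1, (hd₀ l hl).2.trans (min_le_right _ _)⟩
  have hδy : ∀ l < r, 0 < δ₀ l ∧ δ₀ l ≤ y := fun l hl =>
    ⟨(hδ₀ l hl).1, (hδ₀ l hl).2.trans (min_le_right _ _)⟩
  obtain ⟨L', htop⟩ := htop Kc
  obtain ⟨d, hd⟩ : ∃ d : ℕ → ℝ, d = fun l => if l < r then d₀ l else x := ⟨_, rfl⟩
  obtain ⟨δ, hδ⟩ : ∃ δ : ℕ → ℝ, δ = fun l => if l < r then δ₀ l else x := ⟨_, rfl⟩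
  have hdl : ∀ l < r, d l = d₀ l := fun l hl => by rw [hd]; exact if_pos hl
  have hdr : ∀ l, ¬ l < r → d l = x := fun l hl => by rw [hd]; exact if_neg hl
  have hδl : ∀ l < r, δ l = δ₀ l := fun l hl => by rw [hδ]; exact if_pos hl
  have hδr : ∀ l, ¬ l < r → δ l = x := fun l hl => by rw [hδ]; exact if_neg hl
  refine ⟨max Kc K', d, δ, K₂ * (K₁ * 2 ^ L), by positivity, fun l _ => ?_, ?_⟩
  · rcases Nat.lt_or_ge l r with h1 | h1
    · rw [hdl l h1, hδl l h1]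
      have h2 := hdy l h1
      have h3 := hδy l h1
      exact ⟨h2.1, by linarith, h3.1.le, by linarith⟩
    · rw [hdr l (by omega), hδr l (by omega)]
      exact ⟨hx0, hx1, hx0.le, hx1⟩
  -- the statements about the class
  obtain ⟨κ, hκ⟩ : ∃ κ : ℝ, κ = 1 / 2 ^ L := ⟨_, rfl⟩
  have hκ0 : 0 < κ := by rw [hκ]; positivity
  have hrel' := Bas.all (S := S) N (Φ := fun k J F A => ∀ B : F.Ω → Prop, Sub B A →
      κ / (K₂ * K₁) * Pe F.p A ≤ Pe F.p B →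
      RelvS c r Kt (fun l => bet P c l (a k) (w k)) d₀ (a k) (w k) (e₀ k) D η (1 / 2) J F B)
    fun k hk => bas_ev (hrel k hk Kt d₀ (hd'.mono fun l n =>
      (min_le_left _ _).trans (hψ1 l n k hk))) (show 0 < κ / (K₂ * K₁) by positivity)
  obtain ⟨J₁, hJ₁⟩ := big ((L' : ℝ) + 3 * (r + 1)) (show 0 < ρ / 4 by positivity)
  obtain ⟨J₂, hJ₂⟩ := big (2 : ℝ) (show 0 < ρ / 2 by positivity)
  obtain ⟨J₃, hJ₃⟩ := big ((L : ℝ) + 1) (show 0 < x / 8 by positivity)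
  refine Bas.mono (max (max J₁ J₂) J₃) ((hTall.and (bas_ev hlow'
    (show 0 < 1 / K₂ by positivity))).and hrel') ?_
  rintro J hJ F A ⟨⟨⟨B₀, s1, s2, s3⟩, hev⟩, hre⟩
  have hJ0 : (0 : ℝ) ≤ J := Nat.cast_nonneg J
  have b1 := hJ₁ J (((le_max_left _ _).trans (le_max_left _ _)).trans hJ)
  have b2 := hJ₂ J (((le_max_right _ _).trans (le_max_left _ _)).trans hJ)
  have b3 := hJ₃ J ((le_max_right _ _).trans hJ)
  obtain ⟨B₁, G, H, t1, t2, hM⟩ := hev B₀ s1 (by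
    rw [div_mul_eq_mul_div, one_mul, div_le_iff₀ hK₂]
    linarith)
  obtain ⟨G, H, hM⟩ := hM.congr (K' := Kt)
    (g' := fun k l => ⌊(bet P c l (a k) (w k) - d₀ l) * J⌋₊) (δ' := fun l => ⌊δ₀ l * J⌋₊)
    (fun l hl => (hKl l hl).ge) (fun _ _ _ => rfl) (fun _ _ => rfl)
  have hPA : Pe F.p A ≤ K₂ * K₁ * Pe F.p B₁ := by
    calc Pe F.p A ≤ K₂ * Pe F.p B₀ := s2
      _ ≤ K₂ * (K₁ * Pe F.p B₁) := mul_le_mul_of_nonneg_left t2 hK₂.le
      _ = _ := by ring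
  have hsubA : Sub B₁ A := fun ω hω => s1 ω (t1 ω hω)
  have hpos : ∀ A : F.Ω → Prop, 0 ≤ Pe F.p A := fun A => Pe_nonneg F.isLaw A
  have hbl : ∀ k < N, ∀ l, a k ≤ bet P c l (a k) (w k) := fun k hk l =>
    hP.low _ (a k) (w k) (h.pos k hk).le (h.wa k hk) (h.lt k hk).le
  have haμ : ∀ k < N, μ ≤ a k := fun k hk => (hμw k hk).trans (h.wa k hk)
  have he0 : ∀ k < N, 0 ≤ e k := fun k hk => by
    have h1 := he k hk
    have h2 : (0 : ℝ) ≤ Csl r r * vs k := mul_nonneg (Nat.cast_nonneg _) (hvs k hk)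
    linarith
  -- no relation on the event
  have hR : ∀ k < N, Relv F c r ⌊a k * J⌋₊ ⌊w k * J⌋₊
      (fun l => ⌊(bet P c l (a k) (w k) - d₀ l) * J⌋₊) B₁ (G k) D ⌊η * J⌋₊ κ (1 / 2) := by
    intro k hk A' hA' hPA' Dx Dl n h1 h2 h3 h4 h5
    have hok := hM.ok k hk
    exact hre k hk A' (fun ω h => hsubA ω (hA' ω h)) (by
        calc κ / (K₂ * K₁) * Pe F.p A ≤ κ / (K₂ * K₁) * (K₂ * K₁ * Pe F.p B₁) :=
              mul_le_mul_of_nonneg_left hPA (by positivity)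
          _ = κ * Pe F.p B₁ := by field_simp
          _ ≤ _ := hPA') (G k) (H k) ((hok.mono le_rfl (fun _ => le_rfl) le_rfl
            (Nat.floor_le_floor (mul_le_mul_of_nonneg_right (he₀ k hk) hJ0))).sub hA')
      Dx Dl n h1 h2 h3 h4 (fun ω hω => (h5 ω hω).1) (fun ω hω => (h5 ω hω).2)
  have hex : ∀ k, ∃ (c' : ℕ → Fin m) (i e' : ℕ) (q : ℕ → ℕ), k < N → i ≤ r ∧
      Set.InjOn c' (Set.Iio i) ∧ (∀ l < i, ∃ j < r, c' l = c j) ∧ c' i = c r ∧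
      ChN F c' (i + 1) (fun _ => K') ⌊a k * J⌋₊ ⌊w k * J⌋₊ e' q B₀ ∧ (P₀ k - x / 4) * J ≤ q i ∧
      ∀ l ≤ i, ((e' + q l : ℕ) : ℝ) ≤ (sg k + x / 4) * J := by
    intro k
    by_cases hk : k < N
    · obtain ⟨c', i, e', q, h1⟩ := s3 k hk
      exact ⟨c', i, e', q, fun _ => h1⟩
    · exact ⟨c, 0, 0, fun _ => 0, fun h => absurd h hk⟩
  choose c' i e' q hq using hex
  have hLη : (L : ℝ) * (⌊η * J⌋₊ + 1) ≤ x / 4 * J := by
    have h1 : (⌊η * J⌋₊ : ℝ) ≤ η * J := Nat.floor_le (mul_nonneg hη0.le hJ0)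
    have h2 := mul_le_mul_of_nonneg_left h1 hL0
    have h3 := mul_le_mul_of_nonneg_right hηL hJ0
    linarith only [h2, h3, b3]
  have hP₀ : ∀ k < N, x ≤ P₀ k := fun k hk => by
    have h1 := haμ k hk
    have h2 := hlow k hk
    linarith
  have hpf : ∀ k < N, (⌊(P₀ k - x) * J⌋₊ : ℝ) ≤ (P₀ k - x) * J := fun k hk =>
    Nat.floor_le (mul_nonneg (by linarith [hP₀ k hk]) hJ0)
  obtain ⟨B, Gt, Ht, o1, o2, o3⟩ := htop (c := c) (c' := c') (k₀ := c r) (r := r) (i := i)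
    (R := fun k k' => a k ≤ a k' ∧ w k ≤ w k') (a := fun k => ⌊a k * J⌋₊)
    (w := fun k => ⌊w k * J⌋₊) (e := fun k => ⌊e k * J⌋₊) (e' := e')
    (ν := fun k => ⌊(vs k + y) * J⌋₊ + 1) (p := fun k => ⌊(P₀ k - x) * J⌋₊)
    (E := fun k => ⌊E k * J⌋₊) (h := ⌊η * J⌋₊) (D := D) (δt := ⌊x * J⌋₊) (K := Kt)
    (g := fun k l => ⌊(bet P c l (a k) (w k) - d₀ l) * J⌋₊) (g' := q)
    (δ := fun l => ⌊δ₀ l * J⌋₊) (A := B₁) (κ := κ) (G := G) (H := H) le_rfl hc hKc'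
    (by rw [hD]) hκ0.le (by rw [hκ, one_div_mul_cancel (by positivity)]) hM hR
    (fun k hk => Pool.LBT.fl_le' ((h.wa k hk).trans (h.lt k hk).le) J)
    (fun k' hk' k hk hkk => ⟨Nat.floor_le_floor (mul_le_mul_of_nonneg_right hkk.1 hJ0),
      Nat.floor_le_floor (mul_le_mul_of_nonneg_right hkk.2 hJ0),
      Nat.floor_le_floor (mul_le_mul_of_nonneg_right
        (by linarith [hmon k' hk' k hk hkk.1 hkk.2]) hJ0)⟩)
    (fun k hk => num_nlp (h.srt k hk) hdy fun l hl => by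
      have h1 := (hdy l hl).2
      have h2 := hbl k hk l
      have h3 := haμ k hk
      linarith)
    (fun k hk => by
      obtain ⟨h1, h2, h3, h4, ⟨G', H', h5⟩, h6, h7⟩ := hq k hk
      exact ⟨h1, h2, h3, h4, G', H', h5.sub t1⟩)
    (fun k hk => by
      obtain ⟨h1, h2, h3, h4, h5, h6, h7⟩ := hq k hk
      have h8 := hpf k hk
      have h9 : ((⌊(P₀ k - x) * J⌋₊ + L * (⌊η * J⌋₊ + 1) : ℕ) : ℝ) ≤ q k (i k) := by
        push_cast
        have h10 : 0 ≤ x * (J : ℝ) := by positivity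
        linarith only [h8, hLη, h6, h10]
      exact_mod_cast h9)
    (fun k hk => Nat.floor_le_floor (mul_le_mul_of_nonneg_right (by
      have h1 := hρ1 k hk
      have h2 := he0 k hk
      have h3 := hvs k hk
      nlinarith) hJ0))
    (fun k hk => num_e (he0 k hk) (hvs k hk) hy0.le hη0.le (hρ1 k hk) (by linarith)
      (by rw [hyr]; exact hx3) b1)
    (fun k hk => by
      obtain ⟨h1, h2, h3, h4, h5, h6, h7⟩ := hq k hk
      refine num_s (sg := sg k) (ε := x / 4) (ρ := ρ) (P₀ := P₀ k)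
        (b := bet P c (r - 1) (a k) (w k)) (x := x) hη0.le h7 ?_ (by linarith) b2
      rcases hρ2 k hk with h8 | ⟨h8, h9⟩
      · exact Or.inl ⟨h8, (Nat.lt_floor_add_one _).le⟩
      · refine Or.inr ⟨h9, le_trans (mul_le_mul_of_nonneg_right ?_ hJ0)
          (Nat.lt_floor_add_one _).le⟩
        have h10 := (hdy (r - 1) (by omega)).2
        linarith)
    (by
      refine Nat.le_floor ?_
      push_cast
      have h10 : 0 ≤ x * (J : ℝ) := by positivity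
      linarith only [hLη, h10])
  have eg : (fun k l => if l < r then ⌊(bet P c l (a k) (w k) - d₀ l) * J⌋₊ else
      ⌊(P₀ k - x) * (J : ℝ)⌋₊) = fun k l =>
      ⌊((if l < r then bet P c l (a k) (w k) else P₀ k) - d l) * J⌋₊ := by
    funext k l
    by_cases hl : l < r
    · rw [if_pos hl, if_pos hl, hdl l hl]
    · rw [if_neg hl, if_neg hl, hdr l hl]
  have eδ : (fun l => if l < r then ⌊δ₀ l * (J : ℝ)⌋₊ else ⌊x * (J : ℝ)⌋₊) =
      fun l => ⌊δ l * (J : ℝ)⌋₊ := by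
    funext l
    by_cases hl : l < r
    · rw [if_pos hl, hδl l hl]
    · rw [if_neg hl, hδr l hl]
  have hfin := MCq.of_pch o3
  rw [eδ] at hfin
  obtain ⟨gf, hgf⟩ : ∃ gf : ℕ → ℕ → ℕ, gf = fun k l =>
      ⌊((if l < r then bet P c l (a k) (w k) else P₀ k) - d l) * (J : ℝ)⌋₊ := ⟨_, rfl⟩
  rw [← hgf] at eg ⊢
  have hfin' : MCq F c (r + 1) (fun _ => max Kc K') N (fun k k' => a k ≤ a k' ∧ w k ≤ w k')
      (fun k => ⌊a k * J⌋₊) (fun k => ⌊w k * J⌋₊) (fun k => ⌊E k * J⌋₊) gf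
      (fun l => ⌊δ l * J⌋₊) B (fun k y l => if l < r then G k y l else Gt k y)
      (fun k s l => if l < r then H k s l else Ht k s) := by
    rw [← eg]
    exact ⟨fun k hk => (hfin.ok k hk).mono le_rfl (fun l => by
      show (if l < r then Kt l else K') ≤ _
      split_ifs
      · exact (hKc' l).trans (le_max_left _ _)
      · exact le_max_right _ _) le_rfl le_rfl, hfin.uni, hfin.two, hfin.siz⟩
  refine ⟨B, _, _, fun ω hω => hsubA ω (o1 ω hω), ?_, hfin', fun k hk => ?_⟩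
  · calc Pe F.p A ≤ K₂ * K₁ * Pe F.p B₁ := hPA
      _ ≤ K₂ * K₁ * (2 ^ L * Pe F.p B) := mul_le_mul_of_nonneg_left o2 (by positivity)
      _ = _ := by ring
  · have h1 := low_ok (hM.ok k hk) o1 (hfin'.ok k hk) (fun l hl => by
      rw [← eg]
      exact if_pos hl) (fun y l hl => if_pos hl)
    rw [hgf] at h1
    exact h1

end Pool.JTN
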