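import Pool.Agent.H2.GEN.AttJ
import Pool.Agent.H9.GEN.Own

/-!
# A label of the target on the top of the chains of several points (family level)

`top_box`: a chain label of the target, over any list of coordinates of the chain, of any sides, is
put on the top of the chain.
`mcq_top`: the same for the chains of several points at once, with `uni`, `two`, `siz` for the
target.
-/

set_option autoImplicit false

namespace Pool.JTN

open Finset Real MvPolynomial
open Pool.Agent.H49.Ent Pool.Agent.H32.Dense Pool.STK Pool.KA Pool.KSAT Pool.K2S Pool.PB Pool.S6C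
open Pool.GEN Pool.CHT
open Pool.FRN (Relv foreign own_ext uni_s)

/-- **One box**: a label of the target over a foreign list, on the top of the chain. -/
theorem top_box (r₀ K' : ℕ) : ∃ L : ℕ, ∀ Kc : ℕ, ∃ L' : ℕ,
    ∀ {m J : ℕ} {F : Fam m J} {c c' : ℕ → Fin m}
    {r i a w e e' h D ν p E : ℕ} {K q g' : ℕ → ℕ} {A : F.Ω → Prop} {κ : ℝ}
    {G G' : PtT F → ℕ → MvPolynomial (Option (Fin m)) ℝ}
    {H H' : LnT F → ℕ → MvPolynomial (Option (Fin m)) ℝ},
    r ≤ r₀ → Set.InjOn c (Set.Iio r) → (∀ l, K l ≤ Kc) → max K' 1 ≤ D → 0 ≤ κ →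
    κ * 2 ^ L ≤ 1 → ChOK F c r K a w e q A G H → (∀ i < r, ∀ l < i, nlp q l i ≤ ν) →
    Relv F c r a w q A G D h κ (1 / 2) → w ≤ J → i ≤ r₀ → Set.InjOn c' (Set.Iio i) →
    (∀ l < i, ∃ j < r, c' l = c j) → ChOK F c' (i + 1) (fun _ => K') a w e' g' A G' H' →
    p + L * (h + 1) ≤ g' i → e ≤ E → h + L' + (e + ν + 2) * (r₀ + 1) ≤ E →
    h + e' + (Finset.Icc 0 i).sup g' ≤ E + max (q (r - 1)) p →
    ∃ B : F.Ω → Prop, Sub B A ∧ Pe F.p A ≤ 2 ^ L * Pe F.p B ∧
      ChOK F (pch c r (c' i)) (r + 1) (fun l => if l < r then K l else K') a w E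
        (fun l => if l < r then q l else p) B (fun y l => if l < r then G y l else G' y i)
        (fun s l => if l < r then H s l else H' s i) := by
  obtain ⟨L₁, hfor⟩ := foreign r₀ K'
  obtain ⟨L, hL⟩ : ∃ L, L = L₁ + 2 * r₀ + 1 := ⟨_, rfl⟩
  refine ⟨L, fun Kc => ?_⟩
  obtain ⟨L₂, hown⟩ := own_ext r₀ K' Kc
  refine ⟨L₂, ?_⟩
  intro m J F c c' r i a w e e' h D ν p E K q g' A κ G G' H H' hr hc hKc hD hκ0 hκ hch hν hR hwJ
    hi hc' hl hch' hp heE hE1 hE2
  have hPA := Pe_nonneg F.isLaw A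
  have hκ2 : ∀ n ≤ L, κ * 2 ^ n ≤ 1 := fun n hn => le_trans
    (mul_le_mul_of_nonneg_left (pow_le_pow_right₀ (by norm_num) hn) hκ0) hκ
  have hκ3 : ∀ n : ℕ, κ * 2 ^ n ≤ 1 → κ ≤ (1 - 1 / 2 : ℝ) ^ n := by
    intro n hn
    have e1 : (1 - 1 / 2 : ℝ) ^ n = 1 / 2 ^ n := by
      rw [show (1 - 1 / 2 : ℝ) = 1 / 2 by norm_num, one_div_pow]
    rw [e1, le_div_iff₀ (by positivity)]
    exact hn
  obtain ⟨B₁, h1, h2, h3⟩ := hfor (η := 1 / 2) (h := h) (D := D) (κ := κ) (G := G) (q := q)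
    (c := c) (r := r) (a := a) (w := w) hi hc' hl le_rfl le_rfl hwJ hD (by norm_num)
    (by norm_num) (hκ3 i (hκ2 i (by omega))) hR hch'
  have h2' : Pe F.p A ≤ 2 ^ i * Pe F.p B₁ := by
    have e1 : (1 - 1 / 2 : ℝ) ^ i = 1 / 2 ^ i := by
      rw [show (1 - 1 / 2 : ℝ) = 1 / 2 by norm_num, one_div_pow]
    rw [e1, div_mul_eq_mul_div, one_mul, div_le_iff₀ (by positivity)] at h2
    linarith
  have hLh : L₁ * (h + 1) ≤ L * (h + 1) := Nat.mul_le_mul_right _ (by omega)
  have hpg : p ≤ g' i := by omega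
  have hsup : g' i ≤ (Finset.Icc 0 i).sup g' :=
    Finset.le_sup (f := g') (Finset.mem_Icc.2 ⟨Nat.zero_le _, le_rfl⟩)
  obtain ⟨σ, hσ⟩ : ∃ σ, σ = e' + (Finset.Icc 0 i).sup g' := ⟨_, rfl⟩
  obtain ⟨B, k1, k2, k3⟩ := hown (m := m) (J := J) (F := F) (c := c) (r := r) (a := a) (w := w)
    (e := e) (h := h) (D := D) (ν := ν) (p := p) (σ := σ) (e' := E) (K := K) (q := q) (A := B₁)
    (κ := κ * 2 ^ i) (η := 1 / 2) (G := G) (H := H) (k := c' i) (Gt := fun y => G' y i)
    (Ht := fun s => H' s i) hr hc hKc ((le_max_left _ _).trans hD) (by norm_num) (by norm_num)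
    (by
      have h5 := hκ3 (i + r) (hκ2 (i + r) (by omega))
      have e1 : (1 - 1 / 2 : ℝ) ^ (i + r) = (1 - 1 / 2) ^ r * (1 / 2 ^ i) := by
        rw [pow_add, show (1 - 1 / 2 : ℝ) = 1 / 2 by norm_num, one_div_pow, one_div_pow]
        ring
      rw [e1] at h5
      have h6 := mul_le_mul_of_nonneg_right h5 (show (0 : ℝ) ≤ 2 ^ i by positivity)
      rwa [mul_assoc ((1 - 1 / 2 : ℝ) ^ r), one_div_mul_cancel (by positivity), mul_one] at h6)
    (hch.sub h1) hν
    (hR.sub h1 (by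
      calc κ * Pe F.p A ≤ κ * (2 ^ i * Pe F.p B₁) := mul_le_mul_of_nonneg_left h2' hκ0
        _ = _ := by ring) le_rfl le_rfl le_rfl)
    (fun y => hch'.degG y i) (fun s => hch'.degH s i)
    (fun y => Pool.FRN.DepC.of_list (hch'.depG y i) hl)
    (fun s => Pool.FRN.DepC.of_list (hch'.depH s i) hl)
    (fun ω hω => (hch'.pos ω (h1 ω hω) i (by omega)).trans (inv_mono hpg))
    (fun ω hω b hb => by
      refine (h3 ω hω b hb).2.trans ?_
      rw [div_le_div_iff₀ (by positivity) (by positivity), one_mul, ← pow_add]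
      exact pow_le_pow_right₀ (by norm_num) (by omega))
    (fun ω hω l hlr => by
      by_cases hex : ∃ l' < i, c l = c' l'
      · obtain ⟨l', hl', e1⟩ := hex
        rw [e1]
        refine (hch'.lip ω (h1 ω hω) i (by omega) _ (hch'.self (h1 ω hω) (by omega)) l' hl').trans
          ?_
        rw [le_div_iff₀ (by positivity), ← pow_add]
        refine pow_le_pow_right₀ (by norm_num) ?_
        have h4 : (Finset.Icc l' i).sup g' ≤ (Finset.Icc 0 i).sup g' :=
          Finset.sup_mono (Finset.Icc_subset_Icc (Nat.zero_le _) le_rfl)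
        have h5 : g' i ≤ (Finset.Icc l' i).sup g' :=
          Finset.le_sup (f := g') (Finset.mem_Icc.2 ⟨hl'.le, le_rfl⟩)
        unfold nlp
        omega
      · rw [DepC.pd_zero (hch'.depG _ i) (o := some (c l)) (by simp) (fun l' hl' h => hex ⟨l', hl',
          Option.some.inj h⟩), abs_zero]
        positivity)
    heE (by omega) (by omega)
  refine ⟨B, fun ω hω => h1 ω (k1 ω hω), ?_, k3⟩
  have h6 : Pe F.p B₁ ≤ 2 ^ r * Pe F.p B := by
    have e1 : (1 - 1 / 2 : ℝ) ^ r = 1 / 2 ^ r := by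
      rw [show (1 - 1 / 2 : ℝ) = 1 / 2 by norm_num, one_div_pow]
    rw [e1, div_mul_eq_mul_div, one_mul, div_le_iff₀ (by positivity)] at k2
    linarith
  have hPB := Pe_nonneg F.isLaw B
  calc Pe F.p A ≤ 2 ^ i * Pe F.p B₁ := h2'
    _ ≤ 2 ^ i * (2 ^ r * Pe F.p B) := mul_le_mul_of_nonneg_left h6 (by positivity)
    _ = 2 ^ (i + r) * Pe F.p B := by rw [pow_add]; ring
    _ ≤ 2 ^ L * Pe F.p B :=
      mul_le_mul_of_nonneg_right (pow_le_pow_right₀ (by norm_num) (by omega)) hPB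

theorem half_pow (n : ℕ) : (1 - 1 / 2 : ℝ) ^ n = 1 / 2 ^ n := by
  rw [show (1 - 1 / 2 : ℝ) = 1 / 2 by norm_num, one_div_pow]

theorem pe_of {x y : ℝ} {n : ℕ} (h : 1 / 2 ^ n * x ≤ y) : x ≤ 2 ^ n * y := by
  rw [div_mul_eq_mul_div, one_mul, div_le_iff₀ (by positivity)] at h
  linarith

/-- **All boxes**: the target on the top of the chains of several points. -/
theorem mcq_top (r₀ K' N : ℕ) : ∃ L : ℕ, ∀ Kc : ℕ, ∃ L' : ℕ,
    ∀ {m J : ℕ} {F : Fam m J} {c : ℕ → Fin m}
    {c' : ℕ → ℕ → Fin m} {k₀ : Fin m} {r : ℕ} {i : ℕ → ℕ} {R : ℕ → ℕ → Prop}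
    {a w e e' ν p E : ℕ → ℕ} {h D δt : ℕ} {K : ℕ → ℕ} {g g' : ℕ → ℕ → ℕ} {δ : ℕ → ℕ}
    {A : F.Ω → Prop} {κ : ℝ} {G : ℕ → PtT F → ℕ → MvPolynomial (Option (Fin m)) ℝ}
    {H : ℕ → LnT F → ℕ → MvPolynomial (Option (Fin m)) ℝ},
    r ≤ r₀ → Set.InjOn c (Set.Iio r) → (∀ l, K l ≤ Kc) → max K' 1 ≤ D → 0 ≤ κ →
    κ * 2 ^ L ≤ 1 → MCq F c r K N R a w e g δ A G H →
    (∀ k < N, Relv F c r (a k) (w k) (g k) A (G k) D h κ (1 / 2)) → (∀ k < N, w k ≤ J) →
    (∀ k' < N, ∀ k < N, R k k' → a k ≤ a k' ∧ w k ≤ w k' ∧ p k ≤ p k') →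
    (∀ k < N, ∀ i < r, ∀ l < i, nlp (g k) l i ≤ ν k) →
    (∀ k < N, i k ≤ r₀ ∧ Set.InjOn (c' k) (Set.Iio (i k)) ∧
      (∀ l < i k, ∃ j < r, c' k l = c j) ∧ c' k (i k) = k₀ ∧
      ChN F (c' k) (i k + 1) (fun _ => K') (a k) (w k) (e' k) (g' k) A) →
    (∀ k < N, p k + L * (h + 1) ≤ g' k (i k)) → (∀ k < N, e k ≤ E k) →
    (∀ k < N, h + L' + (e k + ν k + 2) * (r₀ + 1) ≤ E k) →
    (∀ k < N, h + e' k + (Finset.Icc 0 (i k)).sup (g' k) ≤ E k + max (g k (r - 1)) (p k)) →
    L * (h + 1) ≤ δt →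
    ∃ (B : F.Ω → Prop) (Gt : ℕ → PtT F → MvPolynomial (Option (Fin m)) ℝ)
      (Ht : ℕ → LnT F → MvPolynomial (Option (Fin m)) ℝ), Sub B A ∧
      Pe F.p A ≤ 2 ^ L * Pe F.p B ∧
      MCq F (pch c r k₀) (r + 1) (fun l => if l < r then K l else K') N R a w E
        (fun k l => if l < r then g k l else p k) (fun l => if l < r then δ l else δt) B
        (fun k y l => if l < r then G k y l else Gt k y)
        (fun k s l => if l < r then H k s l else Ht k s) := by
  classical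
  obtain ⟨L₁, htop⟩ := top_box r₀ K'
  obtain ⟨L₂, hfor⟩ := foreign r₀ K'
  obtain ⟨L, hL⟩ : ∃ L, L = L₁ + L₂ + L₁ * N + r₀ * (N * N) + N * N + N + r₀ + 4 := ⟨_, rfl⟩
  refine ⟨L, fun Kc => ?_⟩
  obtain ⟨L', htop⟩ := htop Kc
  refine ⟨L', ?_⟩
  intro m J F c c' k₀ r i R a w e e' ν p E h D δt K g g' δ A κ G H hr hc hKc hD hκ0 hκ hM hR hwJ
    hmon hν hN hp heE hE1 hE2 hδt
  have hpos : ∀ A : F.Ω → Prop, 0 ≤ Pe F.p A := fun A => Pe_nonneg F.isLaw A
  have hκ2 : ∀ n ≤ L, κ * 2 ^ n ≤ 1 := fun n hn => le_trans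
    (mul_le_mul_of_nonneg_left (pow_le_pow_right₀ (by norm_num) hn) hκ0) hκ
  have hRB : ∀ (n : ℕ) (B' : F.Ω → Prop), Sub B' A → Pe F.p A ≤ 2 ^ n * Pe F.p B' → ∀ k < N,
      Relv F c r (a k) (w k) (g k) B' (G k) D h (κ * 2 ^ n) (1 / 2) := by
    intro n B' h1 h2 k hk
    refine (hR k hk).sub h1 ?_ le_rfl le_rfl le_rfl
    calc κ * Pe F.p A ≤ κ * (2 ^ n * Pe F.p B') := mul_le_mul_of_nonneg_left h2 hκ0
      _ = _ := by ring
  have hex : ∀ k, ∃ (G' : PtT F → ℕ → MvPolynomial (Option (Fin m)) ℝ)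
      (H' : LnT F → ℕ → MvPolynomial (Option (Fin m)) ℝ), k < N →
      ChOK F (c' k) (i k + 1) (fun _ => K') (a k) (w k) (e' k) (g' k) A G' H' := by
    intro k
    by_cases hk : k < N
    · obtain ⟨-, -, -, -, G', H', h1⟩ := hN k hk
      exact ⟨G', H', fun _ => h1⟩
    · exact ⟨fun _ _ => 0, fun _ _ => 0, fun h => absurd h hk⟩
  choose G' H' hch' using hex
  have hLh : ∀ n ≤ L, n * (h + 1) ≤ L * (h + 1) := fun n hn => Nat.mul_le_mul_right _ hn
  have hl1 := hLh L₁ (by omega)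
  have hl2 := hLh L₂ (by omega)
  have hl3 := hLh (L₂ + 4) (by omega)
  have hl4 : (L₂ + 4) * (h + 1) = L₂ * (h + 1) + 4 * h + 4 := by ring
  have hpg : ∀ k < N, p k ≤ g' k (i k) := fun k hk => by
    have := hp k hk
    omega
  -- the tops
  obtain ⟨B₁, b1, b2, x, b3⟩ := iter_ex (p := F.p) (τ := Unit) hpos L₁ N (B₀ := A)
    (κ := 1 / 2 ^ (L₁ * N))
    (Ψ := fun k _ B => ChOK F (pch c r k₀) (r + 1) (fun l => if l < r then K l else K') (a k) (w k)
      (E k) (fun l => if l < r then g k l else p k) B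
      (fun y l => if l < r then G k y l else G' k y (i k))
      (fun s l => if l < r then H k s l else H' k s (i k)))
    (fun l _ B B' hB h => h.sub hB) (by positivity) (by
      rw [one_div_mul_cancel (by positivity)])
    (fun k hk B' hB' hP' => by
      obtain ⟨n1, n2, n3, n4, -⟩ := hN k hk
      obtain ⟨B, o1, o2, o3⟩ := htop (c := c) (c' := c' k) (K := K) (q := g k) (h := h) (D := D)
        (p := p k) (E := E k) (ν := ν k) (κ := κ * 2 ^ (L₁ * N)) (A := B') hr hc hKc hD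
        (by positivity) (by
          rw [mul_assoc, ← pow_add]
          exact hκ2 _ (by omega)) ((hM.ok k hk).sub hB') (hν k hk)
        (hRB _ B' hB' (pe_of hP') k hk) (hwJ k hk) n1 n2 n3
        ((hch' k hk).sub hB') (by have := hp k hk; omega) (heE k hk)
        (hE1 k hk) (hE2 k hk)
      rw [n4] at o3
      exact ⟨B, o1, o2, (), o3⟩)
  have hb2 : ∀ (n : ℕ) (B' : F.Ω → Prop), 1 / 2 ^ n * Pe F.p B₁ ≤ Pe F.p B' →
      Pe F.p A ≤ 2 ^ (L₁ * N + n) * Pe F.p B' := by
    intro n B' h1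
    calc Pe F.p A ≤ 2 ^ (L₁ * N) * Pe F.p B₁ := b2
      _ ≤ 2 ^ (L₁ * N) * (2 ^ n * Pe F.p B') :=
          mul_le_mul_of_nonneg_left (pe_of h1) (by positivity)
      _ = _ := by rw [pow_add]; ring
  -- the coarse labels on the fine boxes
  obtain ⟨B₂, l1, l2, l3⟩ := iter_ev (p := F.p) hpos r₀ (N * N) (B₀ := B₁)
    (κ := 1 / 2 ^ (r₀ * (N * N)))
    (Φ := fun n ω => R (n / N) (n % N) → ∀ b,
      NBx c (G (n % N) (ptr F J ω)) (g (n % N)) (a (n % N)) (F.t ω) r b →
      |eval b (G' (n / N) (ptr F J ω) (i (n / N))) -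
        eval b (H' (n / N) (slam F (w (n / N)) ω) (i (n / N)))| ≤
        2 ^ (L₂ * (h + 1)) / 2 ^ g' (n / N) (i (n / N))) (by positivity) (by
      rw [one_div_mul_cancel (by positivity)]) (fun n hn B' hB' hP' => by
      have hN0 : 0 < N := by
        rcases Nat.eq_zero_or_pos N with h0 | h0
        · subst h0; omega
        · exact h0
      obtain ⟨k, hk⟩ : ∃ k, k = n / N := ⟨_, rfl⟩
      obtain ⟨k', hk'⟩ : ∃ k', k' = n % N := ⟨_, rfl⟩
      have hk'N : k' < N := by rw [hk']; exact Nat.mod_lt _ hN0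
      have hkN : k < N := by
        rw [hk, Nat.div_lt_iff_lt_mul hN0]
        exact hn
      rw [← hk, ← hk']
      by_cases hkk : R k k'
      swap
      · refine ⟨B', fun _ h => h, ?_, fun ω _ h => absurd h hkk⟩
        have h1 : (1 : ℝ) ≤ 2 ^ r₀ := one_le_pow₀ (by norm_num)
        exact le_mul_of_one_le_left (hpos B') h1
      obtain ⟨m1, m2, m3⟩ := hmon k' hk'N k hkN hkk
      obtain ⟨n1, n2, n3, n4, -⟩ := hN k hkN
      have hsubA : Sub B' A := fun ω h => b1 ω (hB' ω h)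
      obtain ⟨B'', o1, o2, o3⟩ := hfor (η := 1 / 2) (h := h) (D := D)
        (κ := κ * 2 ^ (L₁ * N + r₀ * (N * N))) (G := G k')
        (q := g k') (c := c) (r := r) (a := a k') (w := w k') (A := B') n1 n2 n3 m1 m2
        (hwJ k' hk'N) hD (by norm_num) (by norm_num)
        (by
          rw [half_pow, le_div_iff₀ (by positivity), mul_assoc, ← pow_add]
          exact hκ2 _ (by omega))
        (hRB _ B' hsubA (hb2 _ B' hP') k' hk'N) ((hch' k hkN).sub hsubA)
      refine ⟨B'', o1, ?_, fun ω hω _ b hb => (o3 ω hω b hb).2⟩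
      rw [half_pow] at o2
      refine (pe_of o2).trans (mul_le_mul_of_nonneg_right ?_ (hpos B''))
      exact pow_le_pow_right₀ (by norm_num) n1)
  have two' : ∀ k' < N, ∀ k < N, R k k' → ∀ ω, B₂ ω → ∀ b,
      NBx c (G k' (ptr F J ω)) (g k') (a k') (F.t ω) r b →
      |eval b (G' k (ptr F J ω) (i k)) - eval b (H' k (slam F (w k) ω) (i k))| ≤
        2 ^ (L₂ * (h + 1)) / 2 ^ p k := by
    intro k' hk' k hk hkk ω hω b hb
    have hN0 : 0 < N := by omega
    have e1 : (k * N + k') / N = k := by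
      rw [Nat.add_comm, Nat.add_mul_div_right _ _ hN0, Nat.div_eq_of_lt hk', zero_add]
    have e2 : (k * N + k') % N = k' := by
      rw [Nat.add_comm, Nat.add_mul_mod_self_right, Nat.mod_eq_of_lt hk']
    have h2 := l3 ω hω (k * N + k') (by
      have : (k + 1) * N ≤ N * N := Nat.mul_le_mul_right N hk
      nlinarith)
    simp only [e1, e2] at h2
    refine (h2 hkk b hb).trans (div_le_div_of_nonneg_left (by positivity) (by positivity) ?_)
    exact pow_le_pow_right₀ (by norm_num) (hpg k hk)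
  have hl2' : Pe F.p A ≤ 2 ^ (L₁ * N + r₀ * (N * N)) * Pe F.p B₂ := by
    calc Pe F.p A ≤ 2 ^ (L₁ * N) * Pe F.p B₁ := b2
      _ ≤ 2 ^ (L₁ * N) * (2 ^ (r₀ * (N * N)) * Pe F.p B₂) :=
          mul_le_mul_of_nonneg_left l2 (by positivity)
      _ = _ := by rw [pow_add]; ring
  have hb3 : ∀ (n : ℕ) (B' : F.Ω → Prop), 1 / 2 ^ n * Pe F.p B₂ ≤ Pe F.p B' →
      Pe F.p A ≤ 2 ^ (L₁ * N + r₀ * (N * N) + n) * Pe F.p B' := by
    intro n B' h1
    calc Pe F.p A ≤ 2 ^ (L₁ * N + r₀ * (N * N)) * Pe F.p B₂ := hl2'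
      _ ≤ 2 ^ (L₁ * N + r₀ * (N * N)) * (2 ^ n * Pe F.p B') :=
          mul_le_mul_of_nonneg_left (pe_of h1) (by positivity)
      _ = _ := by rw [pow_add _ _ n]; ring
  have hDK : K' ≤ D := (le_max_left _ _).trans hD
  -- the differences of the labels
  obtain ⟨B₃, q1, q2, q3⟩ := iter_ev (p := F.p) hpos 1 (N * N) (B₀ := B₂)
    (κ := 1 / 2 ^ (1 * (N * N)))
    (Φ := fun n ω => R (n / N) (n % N) → ∀ b,
      NBx c (G (n % N) (ptr F J ω)) (g (n % N)) (a (n % N)) (F.t ω) r b →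
      |eval b (G' (n % N) (ptr F J ω) (i (n % N))) -
        eval b (G' (n / N) (ptr F J ω) (i (n / N)))| ≤
        2 ^ (h + L₂ * (h + 1) + 1) / 2 ^ p (n / N)) (by positivity) (by
      rw [one_div_mul_cancel (by positivity)]) (fun n hn B' hB' hP' => by
      have hN0 : 0 < N := by
        rcases Nat.eq_zero_or_pos N with h0 | h0
        · subst h0; omega
        · exact h0
      obtain ⟨k, hk⟩ : ∃ k, k = n / N := ⟨_, rfl⟩
      obtain ⟨k', hk'⟩ : ∃ k', k' = n % N := ⟨_, rfl⟩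
      have hk'N : k' < N := by rw [hk']; exact Nat.mod_lt _ hN0
      have hkN : k < N := by
        rw [hk, Nat.div_lt_iff_lt_mul hN0]
        exact hn
      rw [← hk, ← hk']
      by_cases hkk : R k k'
      swap
      · refine ⟨B', fun _ h => h, ?_, fun ω _ h => absurd h hkk⟩
        have h1 : (1 : ℝ) ≤ 2 ^ 1 := by norm_num
        exact le_mul_of_one_le_left (hpos B') h1
      obtain ⟨m1, m2, m3⟩ := hmon k' hk'N k hkN hkk
      obtain ⟨n1, n2, n3, n4, -⟩ := hN k hkN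
      obtain ⟨x1, x2, x3, x4, -⟩ := hN k' hk'N
      have hsubB : Sub B' B₁ := fun ω h => l1 ω (hB' ω h)
      have hsubA : Sub B' A := fun ω h => b1 ω (hsubB ω h)
      have hk1 := hch' k hkN
      have hk2 := hch' k' hk'N
      have hs1 : ∀ p' q' : ℕ, p' ≤ q' → (1 : ℝ) / 2 ^ q' ≤ 2 ^ (L₂ * (h + 1)) / 2 ^ p' := by
        intro p' q' hpq
        refine (inv_mono hpq).trans (div_le_div_of_nonneg_right ?_ (by positivity))
        exact one_le_pow₀ (by norm_num)
      obtain ⟨B'', o1, o2, o3⟩ := uni_s (k := k₀) (p := p k) (s := L₂ * (h + 1)) (A' := B')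
        (hRB _ B' hsubA (hb3 _ B' hP') k' hk'N) (fun _ h => h) (by
          have h1 := hκ2 (L₁ * N + r₀ * (N * N) + 1 * (N * N)) (by omega)
          exact mul_le_of_le_one_left (hpos B') h1)
        (G₁ := fun y => G' k' y (i k')) (G₂ := fun y => G' k y (i k))
        (H₁ := fun s => H' k' s (i k'))
        (H₂ := fun s => H' k (s.1, s.2.1, s.2.2 / 2 ^ (w k' - w k)) (i k))
        (fun y => (hk2.degG y _).trans hDK) (fun y => (hk1.degG y _).trans hDK)
        (fun s => (hk2.degH s _).trans hDK) (fun s => (hk1.degH _ _).trans hDK)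
        (fun y => Pool.FRN.DepC.of_list (hk2.depG y _) x3)
        (fun y => Pool.FRN.DepC.of_list (hk1.depG y _) n3)
        (fun y => Pool.FRN.DepC.of_list (hk2.depH y _) x3)
        (fun y => Pool.FRN.DepC.of_list (hk1.depH _ _) n3)
        (fun ω hω => by
          have a1 := hk2.pos ω (hsubA ω hω) (i k') (by omega)
          have a2 := hk1.pos ω (hsubA ω hω) (i k) (by omega)
          rw [x4] at a1
          rw [n4] at a2
          exact ⟨a1.trans (hs1 _ _ (m3.trans (hpg k' hk'N))), a2.trans (hs1 _ _ (hpg k hkN))⟩)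
        (fun ω hω b hb => by
          have e1 := slam_coarse' F m2 (hwJ k' hk'N) ω
          rw [e1]
          refine ⟨?_, two' k' hk'N k hkN hkk ω (hB' ω hω) b hb⟩
          have h1 := (b3 k' hk'N).agr ω (hsubB ω hω) r (by omega) b
            ⟨hb.1, fun l hl => by
              rw [pch_lt hl]
              simp only [if_pos hl]
              exact hb.2 l hl⟩
          simp only [if_neg (lt_irrefl r)] at h1
          exact h1.trans (hs1 _ _ m3))
      refine ⟨B'', o1, ?_, fun ω hω _ b hb => o3 ω hω b hb⟩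
      rw [pow_one]
      linarith)
  have hl3' : Pe F.p A ≤ 2 ^ (L₁ * N + r₀ * (N * N) + 1 * (N * N)) * Pe F.p B₃ := by
    calc Pe F.p A ≤ 2 ^ (L₁ * N + r₀ * (N * N)) * Pe F.p B₂ := hl2'
      _ ≤ 2 ^ (L₁ * N + r₀ * (N * N)) * (2 ^ (1 * (N * N)) * Pe F.p B₃) :=
          mul_le_mul_of_nonneg_left q2 (by positivity)
      _ = _ := by rw [pow_add _ _ (1 * (N * N))]; ring
  -- the sizes
  obtain ⟨B₄, o1, o2, o3⟩ := iter_ev (p := F.p) hpos 1 N (B₀ := B₃)
    (κ := 1 / 2 ^ (1 * N))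
    (Φ := fun k ω => ∀ b, NBx c (G k (ptr F J ω)) (g k) (a k) (F.t ω) r b →
      |eval b (G' k (ptr F J ω) (i k)) - F.x ω k₀| ≤ 2 ^ (h + 3)) (by positivity) (by
      rw [one_div_mul_cancel (by positivity)]) (fun k hk B' hB' hP' => by
      obtain ⟨n1, n2, n3, n4, -⟩ := hN k hk
      have hsubB : Sub B' B₁ := fun ω h => l1 ω (q1 ω (hB' ω h))
      have hsubA : Sub B' A := fun ω h => b1 ω (hsubB ω h)
      have hk1 := hch' k hk
      have h1p : ∀ n : ℕ, (1 : ℝ) / 2 ^ n ≤ 1 := fun n => by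
        rw [div_le_one (by positivity)]
        exact one_le_pow₀ (by norm_num)
      have hPA' : Pe F.p A ≤ 2 ^ (L₁ * N + r₀ * (N * N) + 1 * (N * N) + 1 * N) * Pe F.p B' := by
        calc Pe F.p A ≤ 2 ^ (L₁ * N + r₀ * (N * N) + 1 * (N * N)) * Pe F.p B₃ := hl3'
          _ ≤ 2 ^ (L₁ * N + r₀ * (N * N) + 1 * (N * N)) * (2 ^ (1 * N) * Pe F.p B') :=
              mul_le_mul_of_nonneg_left (pe_of hP') (by positivity)
          _ = _ := by rw [pow_add _ _ (1 * N)]; ring
      have hd : ∀ (P : MvPolynomial (Option (Fin m)) ℝ) (z : ℝ), P.totalDegree ≤ D →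
          (MvPolynomial.C (1 / 4) * (P - MvPolynomial.C z)).totalDegree ≤ D := by
        intro P z hP
        refine (totalDegree_mul _ _).trans ?_
        rw [totalDegree_C, zero_add]
        exact (totalDegree_sub _ _).trans (max_le hP (by rw [totalDegree_C]; exact Nat.zero_le _))
      have he : ∀ (P : MvPolynomial (Option (Fin m)) ℝ) (z : ℝ), DepC c r P →
          DepC c r (MvPolynomial.C (1 / 4) * (P - MvPolynomial.C z)) := by
        intro P z hP b b' hn hb
        rw [map_mul, map_mul, map_sub, map_sub, hP b b' hn hb, eval_C, eval_C, eval_C, eval_C]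
      obtain ⟨B'', o1, o2, o3⟩ := hRB _ B' hsubA hPA' k hk B' (fun _ h => h) (by
          have h1 := hκ2 (L₁ * N + r₀ * (N * N) + 1 * (N * N) + 1 * N) (by omega)
          exact mul_le_of_le_one_left (hpos B') h1)
        (fun y => MvPolynomial.C (1 / 4) * (G' k y (i k) - MvPolynomial.C ((y.1 k₀ : ℝ) / 2 ^ J)))
        (fun s => MvPolynomial.C (1 / 4) * (H' k s (i k) - MvPolynomial.C (s.1.1 k₀))) 0
        (fun y => hd _ _ ((hk1.degG y _).trans hDK)) (fun s => hd _ _ ((hk1.degH s _).trans hDK))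
        (fun y => he _ _ (Pool.FRN.DepC.of_list (hk1.depG y _) n3))
        (fun s => he _ _ (Pool.FRN.DepC.of_list (hk1.depH s _) n3))
        (fun ω hω => by
          have a2 := (near_pt F k₀ ω).trans (h1p J)
          constructor
          · have a1 := (hk1.pos ω (hsubA ω hω) (i k) (by omega)).trans (h1p _)
            rw [n4] at a1
            rw [map_mul, map_sub, eval_C, eval_C, pow_zero, div_one, abs_mul,
              abs_of_pos (by norm_num : (0 : ℝ) < 1 / 4)]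
            change 1 / 4 * |eval (bt F ω) (G' k (ptr F J ω) (i k)) -
              ((F.X J ω k₀ : ℤ) : ℝ) / 2 ^ J| ≤ 1
            have a3 : |eval (bt F ω) (G' k (ptr F J ω) (i k)) -
              ((F.X J ω k₀ : ℤ) : ℝ) / 2 ^ J| ≤ 4 := by
              rw [abs_le] at a1 a2 ⊢
              constructor <;> linarith only [a1.1, a1.2, a2.1, a2.2]
            linarith only [a3]
          · intro b hb
            have a3 := near_ini F k₀ ω
            have a1 := (b3 k hk).agr ω (hsubB ω hω) r (by omega) b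
              ⟨hb.1, fun l hl => by
                rw [pch_lt hl]
                simp only [if_pos hl]
                exact hb.2 l hl⟩
            simp only [if_neg (lt_irrefl r)] at a1
            have a1' := a1.trans (h1p _)
            rw [map_mul, map_mul, map_sub, map_sub, eval_C, eval_C, eval_C, pow_zero, div_one,
              ← mul_sub, abs_mul, abs_of_pos (by norm_num : (0 : ℝ) < 1 / 4)]
            change 1 / 4 * |eval b (G' k (ptr F J ω) (i k)) - ((F.X J ω k₀ : ℤ) : ℝ) / 2 ^ J -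
              (eval b (H' k (slam F (w k) ω) (i k)) - F.u ω k₀)| ≤ 1
            have a4 : |eval b (G' k (ptr F J ω) (i k)) - ((F.X J ω k₀ : ℤ) : ℝ) / 2 ^ J -
              (eval b (H' k (slam F (w k) ω) (i k)) - F.u ω k₀)| ≤ 4 := by
              rw [abs_le] at a1' a2 a3 ⊢
              constructor <;> linarith only [a1'.1, a1'.2, a2.1, a2.2, a3.1, a3.2]
            linarith only [a4])
      refine ⟨B'', o1, ?_, fun ω hω b hb => ?_⟩
      · rw [pow_one]
        linarith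
      · have a1 := o3 ω hω b hb
        have a2 := (near_pt F k₀ ω).trans (h1p J)
        have h2h : (1 : ℝ) ≤ 2 ^ h := one_le_pow₀ (by norm_num)
        rw [map_mul, map_sub, eval_C, eval_C, pow_zero, div_one, abs_mul,
          abs_of_pos (by norm_num : (0 : ℝ) < 1 / 4)] at a1
        change 1 / 4 * |eval b (G' k (ptr F J ω) (i k)) - ((F.X J ω k₀ : ℤ) : ℝ) / 2 ^ J| ≤
          2 ^ h at a1
        have a4 : |eval b (G' k (ptr F J ω) (i k)) - ((F.X J ω k₀ : ℤ) : ℝ) / 2 ^ J| ≤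
          4 * 2 ^ h := by linarith only [a1]
        rw [pow_add]
        rw [abs_le] at a4 a2 ⊢
        constructor <;> linarith only [a4.1, a4.2, a2.1, a2.2, h2h])
  -- the chains
  have hbx : ∀ k, ∀ ω, ∀ l ≤ r, ∀ b, NBx (pch c r k₀)
      ((fun k y l => if l < r then G k y l else G' k y (i k)) k (ptr F J ω))
      ((fun k l => if l < r then g k l else p k) k) (a k) (F.t ω) l b →
      NBx c (G k (ptr F J ω)) (g k) (a k) (F.t ω) l b := by
    intro k ω l hl b hb
    refine ⟨hb.1, fun j hj => ?_⟩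
    have h1 := hb.2 j hj
    rw [pch_lt (by omega)] at h1
    simp only [if_pos (show j < r by omega)] at h1
    exact h1
  refine ⟨B₄, fun k y => G' k y (i k), fun k s => H' k s (i k),
    fun ω h => b1 ω (l1 ω (q1 ω (o1 ω h))), ?_, ⟨fun k hk => (b3 k hk).sub fun ω h =>
      l1 ω (q1 ω (o1 ω h)), fun k' hk' k hkN hk l hl ω hω b hb => ?_,
    fun k' hk' k hkN hk l hl ω hω b hb => ?_, fun k hk l hl ω hω b hb => ?_⟩⟩
  · calc Pe F.p A ≤ 2 ^ (L₁ * N + r₀ * (N * N) + 1 * (N * N)) * Pe F.p B₃ := hl3'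
      _ ≤ 2 ^ (L₁ * N + r₀ * (N * N) + 1 * (N * N)) * (2 ^ (1 * N) * Pe F.p B₄) :=
          mul_le_mul_of_nonneg_left o2 (by positivity)
      _ = 2 ^ (L₁ * N + r₀ * (N * N) + 1 * (N * N) + 1 * N) * Pe F.p B₄ := by
          rw [pow_add _ _ (1 * N)]; ring
      _ ≤ _ := by
          refine mul_le_mul_of_nonneg_right (pow_le_pow_right₀ (by norm_num) ?_) (hpos B₄)
          omega
  · have hb' := hbx k' ω l (by omega) b hb
    rcases Nat.lt_or_ge l r with h1 | h1
    · simp only [if_pos h1]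
      exact hM.uni k' hk' k hkN hk l h1 ω (b1 ω (l1 ω (q1 ω (o1 ω hω)))) b hb'
    · have : l = r := by omega
      subst this
      simp only [if_neg (lt_irrefl l)]
      have hN0 : 0 < N := by omega
      have e1 : (k * N + k') / N = k := by
        rw [Nat.add_comm, Nat.add_mul_div_right _ _ hN0, Nat.div_eq_of_lt hk', zero_add]
      have e2 : (k * N + k') % N = k' := by
        rw [Nat.add_comm, Nat.add_mul_mod_self_right, Nat.mod_eq_of_lt hk']
      have h2 := q3 ω (o1 ω hω) (k * N + k') (by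
        have : (k + 1) * N ≤ N * N := Nat.mul_le_mul_right N hkN
        nlinarith)
      simp only [e1, e2] at h2
      refine (h2 hk b hb').trans (div_le_div_of_nonneg_right (pow_le_pow_right₀ (by norm_num) ?_)
        (by positivity))
      omega
  · have hb' := hbx k' ω l (by omega) b hb
    rcases Nat.lt_or_ge l r with h1 | h1
    · simp only [if_pos h1]
      exact hM.two k' hk' k hkN hk l h1 ω (b1 ω (l1 ω (q1 ω (o1 ω hω)))) b hb'
    · have : l = r := by omega
      subst this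
      simp only [if_neg (lt_irrefl l)]
      refine (two' k' hk' k hkN hk ω (q1 ω (o1 ω hω)) b hb').trans
        (div_le_div_of_nonneg_right (pow_le_pow_right₀ (by norm_num) ?_) (by positivity))
      omega
  · have hb' := hbx k ω l (by omega) b hb
    rcases Nat.lt_or_ge l r with h1 | h1
    · rw [pch_lt h1]
      simp only [if_pos h1]
      exact hM.siz k hk l h1 ω (b1 ω (l1 ω (q1 ω (o1 ω hω)))) b hb'
    · have : l = r := by omega
      subst this
      rw [pch_self]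
      simp only [if_neg (lt_irrefl l)]
      refine (o3 ω hω k hk b hb').trans (pow_le_pow_right₀ (by norm_num) ?_)
      omega

end Pool.JTN
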